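import Mathlib
import Pool.Agent.Lib.MP_44a246_ntSH.PJ01

/-!
# STRONG SMT: places from valuation subrings
-/

namespace Pool.Agent.Lib.MP_44a246_ntSM

open Pool.Agent.Lib.MP_e52354_nt
open Pool.Agent.Lib.MP_44a246_nt
open Pool.Agent.Lib.MP_44a246_ntL
open WithZero Module Polynomial IsDedekindDomain

/-- a valuation subring containing the image of a principal ideal domain `R` -/
private theorem place_of_subring_aux {κ R K₀ L : Type*} [Field κ] [IsAlgClosed κ] [CommRing R]
    [IsDomain R] [IsPrincipalIdealRing R] [Algebra κ R] [Field K₀] [Algebra R K₀]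
    [IsFractionRing R K₀] [Field L] [Algebra R L] [Algebra K₀ L] [IsScalarTower R K₀ L]
    [FiniteDimensional K₀ L] [CharZero K₀] [Algebra κ L] [IsScalarTower κ R L]
    (O : ValuationSubring L) (hR : ∀ r : R, algebraMap R L r ∈ O) (hne : ∃ u : L, u ∉ O) :
    ∃ v : Place κ L, ∀ u, u ∈ O ↔ v.1 u ≤ 1 := by
  have : Module.Finite R (integralClosure R L) := finite_B R K₀ L
  have i1 := isFractionRing_B R K₀ L
  have i2 := isDedekindDomain_B R K₀ L
  have := faithful_RL R K₀ L
  have hB : ∀ b : integralClosure R L, algebraMap (integralClosure R L) L b ∈ O := by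
    intro b
    let iO : Algebra R O := ((algebraMap R L).codRestrict O.toSubring hR).toAlgebra
    have ht : IsScalarTower R O L := IsScalarTower.of_algebraMap_eq fun r => rfl
    have h1 : IsIntegral R (b : L) := b.2
    have h2 : IsIntegral O (b : L) := h1.tower_top
    obtain ⟨y, hy⟩ := (IsIntegrallyClosed.isIntegral_iff (R := O) (K := L)).1 h2
    have h3 : (y : L) = (b : L) := hy
    change (b : L) ∈ O
    rw [← h3]
    exact y.2
  let f : integralClosure R L →+* O :=
    (algebraMap (integralClosure R L) L).codRestrict O.toSubring hB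
  have hf : ∀ b, ((f b : O) : L) = algebraMap (integralClosure R L) L b := fun b => rfl
  have hinv : ∀ x : O, x ∉ IsLocalRing.maximalIdeal O → (x : L)⁻¹ ∈ O := by
    intro x hx
    rw [IsLocalRing.mem_maximalIdeal, mem_nonunits_iff, not_not] at hx
    obtain ⟨y, hy⟩ := hx.exists_right_inv
    have hy' : (x : L) * (y : L) = 1 := congrArg Subtype.val hy
    have h1 : (x : L)⁻¹ = (y : L) := inv_eq_of_mul_eq_one_right hy'
    rw [h1]
    exact y.2
  have hP : (IsLocalRing.maximalIdeal O).comap f ≠ ⊥ := by
    intro hbot
    obtain ⟨u, hu⟩ := hne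
    obtain ⟨n, d, hd, rfl⟩ := IsFractionRing.div_surjective (A := integralClosure R L) u
    apply hu
    rw [div_eq_mul_inv]
    refine O.mul_mem _ _ (hB n) ?_
    have h1 := hinv (f d) (fun hmem => ?_)
    · exact h1
    · have h2 : d ∈ (IsLocalRing.maximalIdeal O).comap f := hmem
      rw [hbot, Ideal.mem_bot] at h2
      exact nonZeroDivisors.ne_zero hd h2
  let P : HeightOneSpectrum (integralClosure R L) :=
    ⟨(IsLocalRing.maximalIdeal O).comap f, Ideal.comap_isPrime _ _, hP⟩
  have hmemP : ∀ b, b ∈ P.asIdeal ↔ f b ∈ IsLocalRing.maximalIdeal O := fun b => Iff.rfl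
  refine ⟨placeOf κ L P, fun u => ?_⟩
  change u ∈ O ↔ P.valuation L u ≤ 1
  constructor
  · intro hu
    by_contra hcon
    push Not at hcon
    have hu0 : u ≠ 0 := by
      rintro rfl
      rw [map_zero] at hcon
      exact absurd hcon (not_lt.2 zero_le)
    have h1 : P.valuation L u⁻¹ < 1 := by
      rw [map_inv₀]
      exact inv_lt_one_of_one_lt₀ hcon
    obtain ⟨n, d, hnd⟩ := P.exists_primeCompl_mul_eq_of_integer u⁻¹ h1.le
    have hd1 : P.valuation L (algebraMap _ L (d : integralClosure R L)) = 1 := by
      rw [HeightOneSpectrum.valuation_eq_one_iff_notMem]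
      exact d.2
    have h2 : P.valuation L (algebraMap _ L n) < 1 := by
      rw [← hnd, map_mul, hd1, mul_one]
      exact h1
    rw [P.valuation_lt_one_iff_mem, hmemP] at h2
    have h3 : f (d : integralClosure R L) = (⟨u, hu⟩ : O) * f n := by
      apply Subtype.ext
      change algebraMap (integralClosure R L) L d = u * algebraMap (integralClosure R L) L n
      rw [← hnd, ← mul_assoc, mul_inv_cancel₀ hu0, one_mul]
    have h4 : f (d : integralClosure R L) ∈ IsLocalRing.maximalIdeal O := by
      rw [h3]
      exact Ideal.mul_mem_left _ _ h2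
    exact d.2 h4
  · intro hu
    obtain ⟨n, d, hnd⟩ := P.exists_primeCompl_mul_eq_of_integer u hu
    have h1 := hinv (f (d : integralClosure R L)) (fun hmem => d.2 hmem)
    have hd0 : algebraMap (integralClosure R L) L (d : integralClosure R L) ≠ 0 := by
      intro h0
      have h2 : (d : integralClosure R L) = 0 :=
        (IsFractionRing.injective (integralClosure R L) L) (by rw [h0, map_zero])
      apply d.2
      change (d : integralClosure R L) ∈ P.asIdeal
      rw [h2]
      exact Ideal.zero_mem _
    have h3 : u = algebraMap (integralClosure R L) L n *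
        ((f (d : integralClosure R L) : O) : L)⁻¹ := by
      rw [hf, ← hnd, mul_assoc, mul_inv_cancel₀ hd0, mul_one]
    rw [h3]
    exact O.mul_mem _ _ (hB n) h1

/-- a nontrivial valuation subring of a function field, which contains the constants, is the ring
of a place -/
theorem exists_place_of_subring {F M : Type*} [Field F] [IsAlgClosed F] [CharZero F] [Field M]
    [Algebra F M] (h : IsFF F M) (O : ValuationSubring M) (hF : ∀ c : F, algebraMap F M c ∈ O)
    (hne : ∃ u : M, u ∉ O) : ∃ v : Place F M, ∀ u, u ∈ O ↔ v.1 u ≤ 1 := by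
  have hex : ∃ t : M, t ∈ O ∧ Transcendental F t ∧
      FiniteDimensional (IntermediateField.adjoin F {t}) M := by
    obtain ⟨t, ht, hfin⟩ := h
    rcases O.mem_or_inv_mem t with h1 | h1
    · exact ⟨t, h1, ht, hfin⟩
    · have h2 : IntermediateField.adjoin F {t⁻¹} = IntermediateField.adjoin F {t} := by
        apply le_antisymm
        · rw [IntermediateField.adjoin_simple_le_iff]
          exact inv_mem (IntermediateField.mem_adjoin_simple_self F t)
        · rw [IntermediateField.adjoin_simple_le_iff]
          have := inv_mem (IntermediateField.mem_adjoin_simple_self F t⁻¹)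
          rwa [inv_inv] at this
      refine ⟨t⁻¹, h1, ?_, ?_⟩
      · intro hcon
        apply ht
        have := hcon.inv
        rwa [inv_inv] at this
      · rw [h2]
        exact hfin
  obtain ⟨t, htO, ht, hfin⟩ := hex
  let F₁ := IntermediateField.adjoin F {t}
  let E := (RatFunc.algEquivOfTranscendental t ht).toRingEquiv
  have hE : ∀ f : Polynomial F, ((E (algebraMap _ _ f) : F₁) : M) = Polynomial.aeval t f := by
    intro f
    show ((RatFunc.algEquivOfTranscendental t ht (algebraMap _ _ f)) : M) = _
    rw [RatFunc.algEquivOfTranscendental_algebraMap]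
    exact (Polynomial.aeval_algebraMap_apply M (IntermediateField.AdjoinSimple.gen _ t) f).symm
  let iK : Algebra (RatFunc F) M := ((algebraMap F₁ M).comp (E : RatFunc F →+* F₁)).toAlgebra
  let iX : Algebra (Polynomial F) M :=
    (((algebraMap F₁ M).comp (E : RatFunc F →+* F₁)).comp
      (algebraMap (Polynomial F) (RatFunc F))).toAlgebra
  have t1 : IsScalarTower (Polynomial F) (RatFunc F) M := IsScalarTower.of_algebraMap_eq' rfl
  have t3 : IsScalarTower F (Polynomial F) M := IsScalarTower.of_algebraMap_eq fun u => by
    have := hE (Polynomial.C u)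
    rw [Polynomial.aeval_C] at this
    exact this.symm
  have hfin' : FiniteDimensional (RatFunc F) M :=
    Module.Finite.of_equiv_equiv (A₁ := F₁) (B₁ := M) E.symm (RingEquiv.refl M) (by
      ext x
      show algebraMap F₁ M (E (E.symm x)) = algebraMap F₁ M x
      rw [RingEquiv.apply_symm_apply])
  have hmap : ∀ f : Polynomial F, algebraMap (Polynomial F) M f = Polynomial.aeval t f := hE
  refine place_of_subring_aux (κ := F) (R := Polynomial F) (K₀ := RatFunc F) O (fun r => ?_) hne
  rw [hmap]
  induction r using Polynomial.induction_on' with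
  | add p q hp hq =>
    rw [map_add]
    exact O.add_mem _ _ hp hq
  | monomial n a =>
    rw [Polynomial.aeval_monomial]
    exact O.mul_mem _ _ (hF a) (pow_mem htO n)

end Pool.Agent.Lib.MP_44a246_ntSM
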