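import Mathlib
import Pool.Agent.Lib.MP_44a246_ntE.E02
import Pool.Agent.Lib.MP_44a246_ntR.GR9
import Pool.Agent.Lib.MP_44a246_ntL.LFF

/-!
# STRONG SMT: the canonical divisor

`D' = d / dX` on a function field `M` over `κ`; `𝔎 v = log (v (D' π))` for a uniformiser `π` at `v`.
-/

namespace Pool.Agent.Lib.MP_44a246_ntSM

open Pool.Agent.Lib.MP_e52354_nt
open Pool.Agent.Lib.MP_44a246_nt
open Pool.Agent.Lib.MP_44a246_ntL
open Pool.Agent.Lib.MP_44a246_ntS
open Pool.Agent.Lib.MP_44a246_ntE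
open Pool.Agent.Lib.MP_44a246_ntR
open WithZero Module Polynomial

section Aux

variable {κ L : Type*} [Field κ] [Field L] [Algebra κ L] [Algebra (RatFunc κ) L]
  [IsScalarTower κ (RatFunc κ) L] [IsAlgClosed κ] [CharZero κ] [FiniteDimensional (RatFunc κ) L]

variable (κ L) in
/-- the ramification divisor -/
private theorem sm_exists_ramDiv : ∃ R : Place κ L →₀ ℤ,
    (∀ w : Place κ L, R w = ((ramIdx (RatFunc κ) w.1 - 1 : ℕ) : ℤ)) ∧
      divDeg R = ramDeg κ L (RatFunc κ) := by
  classical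
  have hFF := isFF_of_ratFunc κ L
  have hfin : {v : Place κ L | ramIdx (RatFunc κ) v.1 ≠ 1}.Finite := hFF.ramIdx_finite
  have hs : ∀ v : Place κ L, ramIdx (RatFunc κ) v.1 - 1 ≠ 0 → v ∈ hfin.toFinset := by
    intro v hv
    rw [Set.Finite.mem_toFinset]
    intro h
    rw [h] at hv
    exact hv rfl
  refine ⟨Finsupp.onFinset hfin.toFinset (fun w => ((ramIdx (RatFunc κ) w.1 - 1 : ℕ) : ℤ))
    (fun v hv => hs v (by exact_mod_cast hv)), fun w => rfl, ?_⟩
  unfold divDeg ramDeg
  rw [Finsupp.onFinset_sum _ (fun _ => rfl), finsum_eq_sum_of_support_subset (s := hfin.toFinset)]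
  · push_cast
    rfl
  · intro v hv
    exact hs v hv

end Aux

section

variable {κ M : Type*} [Field κ] [IsAlgClosed κ] [CharZero κ] [Field M] [Algebra κ M]
  [Algebra κ[X] M] [IsScalarTower κ κ[X] M]
  [Algebra (RatFunc κ) M] [IsScalarTower κ[X] (RatFunc κ) M]
  [Algebra (Rinf κ) M] [IsScalarTower (Rinf κ) (RatFunc κ) M]
  [FiniteDimensional (RatFunc κ) M]

omit [IsScalarTower κ κ[X] M] [Algebra κ M] [IsAlgClosed κ] [CharZero κ]
  [Algebra (Rinf κ) M] [IsScalarTower (Rinf κ) (RatFunc κ) M] in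
/-- an element `T` of `κ(X)`, the powers of which contain all the values of the polynomials -/
private theorem sm_ram_of_pow (v : Valuation M ℤᵐ⁰) (hvs : Function.Surjective v) {T : M}
    (hT0 : T ≠ 0) (hT : v T < 1) (hTs : ∃ s : RatFunc κ, algebraMap (RatFunc κ) M s = T)
    (hpow : ∀ p : κ[X], p ≠ 0 → ∃ k : ℤ, v (algebraMap κ[X] M p) = v T ^ k) :
    v T = exp (-(ramIdx (RatFunc κ) v : ℤ)) := by
  obtain ⟨s, hs⟩ := exists_ramIdx (K := RatFunc κ) v hvs
  have he := one_le_ramIdx (K := RatFunc κ) v hvs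
  have hvT : v T ≠ 0 := (Valuation.ne_zero_iff _).2 hT0
  have hl : log (v T) < 0 := by
    have h1 := (log_lt_log hvT one_ne_zero).mpr hT
    rwa [log_one] at h1
  have hle : (ramIdx (RatFunc κ) v : ℤ) ≤ - log (v T) := by
    obtain ⟨s', hs'⟩ := hTs
    have h1 : ramIdx (RatFunc κ) v ≤ (- log (v T)).toNat := by
      refine Nat.sInf_le ⟨by omega, s', ?_⟩
      rw [hs', Int.toNat_of_nonneg (by omega), neg_neg, exp_log hvT]
    omega
  have hs0 : s ≠ 0 := by
    rintro rfl
    rw [map_zero, map_zero] at hs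
    exact exp_ne_zero hs.symm
  obtain ⟨a, ha⟩ := hpow s.num (RatFunc.num_ne_zero hs0)
  obtain ⟨b, hb⟩ := hpow s.denom (RatFunc.denom_ne_zero s)
  have h1 : v (algebraMap (RatFunc κ) M s) = v T ^ (a - b) := by
    conv_lhs => rw [← RatFunc.num_div_denom s]
    rw [map_div₀, map_div₀, ← IsScalarTower.algebraMap_apply κ[X] (RatFunc κ) M,
      ← IsScalarTower.algebraMap_apply κ[X] (RatFunc κ) M, ha, hb, zpow_sub₀ hvT]
  have h2 := congrArg log (h1.symm.trans hs)
  rw [log_exp, log_zpow, smul_eq_mul] at h2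
  have h3 : 1 ≤ a - b := by
    by_contra hcon
    push Not at hcon
    have h4 : 0 ≤ (a - b) * log (v T) := mul_nonneg_of_nonpos_of_nonpos (by omega) hl.le
    omega
  have h4 : (a - b) * log (v T) ≤ 1 * log (v T) := mul_le_mul_of_nonpos_right h3 hl.le
  have h5 : log (v T) = -(ramIdx (RatFunc κ) v : ℤ) := by omega
  rw [← h5, exp_log hvT]

/-- ramification at a zero of `X - c` -/
private theorem sm_ram_fin (v : Place κ M) (c : κ)
    (hT0 : algebraMap κ[X] M X - algebraMap κ M c ≠ 0)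
    (hv : v.1 (algebraMap κ[X] M X - algebraMap κ M c) < 1) :
    v.1 (algebraMap κ[X] M X - algebraMap κ M c) = exp (-(ramIdx (RatFunc κ) v.1 : ℤ)) := by
  have hXc : algebraMap κ[X] M (X - C c) = algebraMap κ[X] M X - algebraMap κ M c := by
    rw [map_sub, IsScalarTower.algebraMap_apply κ κ[X] M]
    rfl
  have hX : v.1 (algebraMap κ[X] M X) ≤ 1 := by
    have h1 : algebraMap κ[X] M X =
        (algebraMap κ[X] M X - algebraMap κ M c) + algebraMap κ M c := by ring
    rw [h1]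
    exact (v.1.map_add _ _).trans (max_le hv.le (place_const_le v c))
  refine sm_ram_of_pow v.1 v.2.1 hT0 hv
    ⟨algebraMap κ[X] (RatFunc κ) (X - C c), ?_⟩ fun p hp => ?_
  · rw [← IsScalarTower.algebraMap_apply κ[X] (RatFunc κ) M, hXc]
  · obtain ⟨q, hq, hqd⟩ := Polynomial.exists_eq_pow_rootMultiplicity_mul_and_not_dvd p hp c
    refine ⟨(p.rootMultiplicity c : ℤ), ?_⟩
    have hqc : q.eval c ≠ 0 := fun h => hqd (dvd_iff_isRoot.2 h)
    have h1 : v.1 (algebraMap κ[X] M q) = 1 := by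
      obtain ⟨g, hg⟩ := X_sub_C_dvd_sub_C_eval (a := c) (p := q)
      have h2 : q = (X - C c) * g + C (q.eval c) := by rw [← hg]; ring
      have h3 : algebraMap κ[X] M (C (q.eval c)) = algebraMap κ M (q.eval c) := by
        rw [IsScalarTower.algebraMap_apply κ κ[X] M]
        rfl
      have h4 : v.1 (algebraMap κ[X] M ((X - C c) * g)) < 1 := by
        rw [map_mul, map_mul, hXc]
        calc v.1 (algebraMap κ[X] M X - algebraMap κ M c) * v.1 (algebraMap κ[X] M g)
            ≤ v.1 (algebraMap κ[X] M X - algebraMap κ M c) * 1 :=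
              mul_le_mul' le_rfl (place_poly v hX g)
          _ < 1 := by rwa [mul_one]
      rw [h2, map_add, h3, Valuation.map_add_eq_of_lt_right v.1 (by rw [v.2.2 _ hqc]; exact h4)]
      exact v.2.2 _ hqc
    conv_lhs => rw [hq]
    rw [map_mul, map_mul, map_pow, map_pow, h1, mul_one, hXc, zpow_natCast]

/-- ramification at a pole of `X` -/
private theorem sm_ram_inf (v : Place κ M) (hv : 1 < v.1 (algebraMap κ[X] M X)) :
    v.1 (algebraMap κ[X] M X) = exp (ramIdx (RatFunc κ) v.1 : ℤ) := by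
  have hX0 : algebraMap κ[X] M X ≠ 0 := by
    intro h0
    rw [h0, map_zero] at hv
    exact not_lt_zero hv
  have hvX : v.1 (algebraMap κ[X] M X) ≠ 0 := (Valuation.ne_zero_iff _).2 hX0
  have h1 := sm_ram_of_pow (κ := κ) v.1 v.2.1 (inv_ne_zero hX0)
    (by rw [map_inv₀]; exact inv_lt_one_of_one_lt₀ hv)
    ⟨(algebraMap κ[X] (RatFunc κ) X)⁻¹, by
      rw [map_inv₀, ← IsScalarTower.algebraMap_apply κ[X] (RatFunc κ) M]⟩
    (fun p hp => ⟨-(p.natDegree : ℤ), by
      rw [place_poly_gt v hv hp, map_inv₀, zpow_neg, inv_zpow, inv_inv, zpow_natCast]⟩)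
  rw [map_inv₀, exp_neg] at h1
  exact inv_injective h1

/-- **The canonical divisor.** -/
theorem exists_canon (D' : Derivation ℤ M M)
    (hκ : ∀ u : κ, D' (algebraMap κ M u) = 0) (hX : D' (algebraMap κ[X] M X) = 1) :
    ∃ 𝔎 : Place κ M →₀ ℤ,
      divDeg 𝔎 = (ramDeg κ M (RatFunc κ) : ℤ) - 2 * finrank (RatFunc κ) M ∧
      ∀ v : Place κ M, (∀ y, v.1 y ≠ 1 → v.1 (D' y) = v.1 y * exp (𝔎 v + 1)) ∧
        (∀ y, v.1 (D' y) ≤ v.1 y * exp (𝔎 v + 1)) ∧
        ∀ y, v.1 y ≤ 1 → v.1 (D' y) ≤ exp (𝔎 v) := by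
  have htow : IsScalarTower κ (RatFunc κ) M := by
    refine IsScalarTower.of_algebraMap_eq fun c => ?_
    rw [IsScalarTower.algebraMap_apply κ κ[X] M,
      IsScalarTower.algebraMap_apply κ[X] (RatFunc κ) M,
      ← IsScalarTower.algebraMap_apply κ κ[X] (RatFunc κ)]
  have htL : tL κ M = algebraMap κ[X] M X := by
    unfold tL
    rw [IsScalarTower.algebraMap_apply κ[X] (RatFunc κ) M, RatFunc.algebraMap_X]
  obtain ⟨P, hP⟩ := exists_pole κ M
  obtain ⟨R, hR, hRdeg⟩ := sm_exists_ramDiv κ M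
  have hval : ∀ v : Place κ M, (R - P - P) v = R v - P v - P v := fun v => by
    rw [Finsupp.sub_apply, Finsupp.sub_apply]
  refine ⟨R - P - P, ?_, fun v => ?_⟩
  · have h1 : divDeg (R - P - P) + divDeg P + divDeg P = divDeg R := by
      rw [← divDeg_add, ← divDeg_add, sub_add_cancel, sub_add_cancel]
    rw [hP.deg, hRdeg] at h1
    linarith
  · obtain ⟨θ, hθ, hθ1, hθ2⟩ := der_lead v D' hκ hX
    have he := one_le_ramIdx (K := RatFunc κ) v.1 v.2.1
    have hRv : R v = (ramIdx (RatFunc κ) v.1 : ℤ) - 1 := by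
      rw [hR, Nat.cast_sub he, Nat.cast_one]
    have hth : θ = exp ((R - P - P) v + 1) := by
      rw [hval, hRv, hP v, htL]
      by_cases hvX : 1 < v.1 (algebraMap κ[X] M X)
      · have h1 := hθ1 _ hvX.ne'
        have h2 := sm_ram_inf v hvX
        rw [hX, map_one, h2] at h1
        rw [h2, log_exp, max_eq_right (Nat.cast_nonneg _)]
        have h3 : (ramIdx (RatFunc κ) v.1 : ℤ) - 1 - (ramIdx (RatFunc κ) v.1 : ℤ) -
            (ramIdx (RatFunc κ) v.1 : ℤ) + 1 = -(ramIdx (RatFunc κ) v.1 : ℤ) := by ring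
        rw [h3, exp_neg]
        exact eq_inv_of_mul_eq_one_right h1.symm
      · push Not at hvX
        obtain ⟨c, hc⟩ := place_residue v hvX
        have hT : D' (algebraMap κ[X] M X - algebraMap κ M c) = 1 := by
          rw [map_sub, hκ, hX, sub_zero]
        have hT0 : algebraMap κ[X] M X - algebraMap κ M c ≠ 0 := by
          intro h0
          rw [h0, map_zero] at hT
          exact zero_ne_one hT
        have h1 := hθ1 _ hc.ne
        have h2 := sm_ram_fin v c hT0 hc
        rw [hT, map_one, h2, exp_neg] at h1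
        have h4 : max 0 (log (v.1 (algebraMap κ[X] M X))) = 0 := by
          by_cases h0 : algebraMap κ[X] M X = 0
          · rw [h0, map_zero, log_zero, max_self]
          · have h5 := (log_le_log ((Valuation.ne_zero_iff v.1).2 h0) one_ne_zero).2 hvX
            rw [log_one] at h5
            exact max_eq_left h5
        rw [h4]
        have h3 : (ramIdx (RatFunc κ) v.1 : ℤ) - 1 - 0 - 0 + 1 =
          (ramIdx (RatFunc κ) v.1 : ℤ) := by ring
        rw [h3]
        have h6 := eq_inv_of_mul_eq_one_right h1.symm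
        rwa [inv_inv] at h6
    rw [← hth]
    refine ⟨hθ1, hθ2, fun y hy => ?_⟩
    obtain ⟨c, hc⟩ := place_residue v hy
    have h1 : D' y = D' (y - algebraMap κ M c) := by rw [map_sub, hκ, sub_zero]
    rw [h1]
    refine (hθ2 _).trans ?_
    rw [hth, exp_add, ← mul_assoc, mul_right_comm]
    calc v.1 (y - algebraMap κ M c) * exp 1 * exp ((R - P - P) v)
        ≤ 1 * exp ((R - P - P) v) := ?_
      _ = exp ((R - P - P) v) := one_mul _
    refine mul_le_mul' ?_ le_rfl
    have h2 := le_exp_neg_one hc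
    calc v.1 (y - algebraMap κ M c) * exp 1 ≤ exp (-1) * exp 1 := mul_le_mul' h2 le_rfl
      _ = 1 := by rw [← exp_add, neg_add_cancel, exp_zero]

end

end Pool.Agent.Lib.MP_44a246_ntSM
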