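import Mathlib
import Pool.Agent.Lib.MP_44a246_ntSM.SM00
import Pool.Agent.Lib.MP_44a246_ntY.Y02
import Pool.Agent.Lib.MP_44a246_ntY.Y03
import Pool.Agent.Lib.MP_44a246_ntY.Y30

/-!
# STRONG SMT: a regular derivation of a function field of large genus has a horizontal place
-/

namespace Pool.Agent.Lib.MP_44a246_ntSM

open Pool.Agent.Lib.MP_e52354_nt
open Pool.Agent.Lib.MP_44a246_nt
open Pool.Agent.Lib.MP_44a246_ntL
open Pool.Agent.Lib.MP_44a246_ntR
open Pool.Agent.Lib.MP_44a246_ntY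
open WithZero Module Polynomial

section Wr

variable {κ L : Type*} [Field κ] [Field L] [Algebra κ L]

/-- the coefficients of the iterates of `a • d` -/
private noncomputable def sm02a (d : Derivation κ L L) (a : L) : ℕ → ℕ → L
  | 0, l => if l = 0 then 1 else 0
  | i + 1, l => a * (d (sm02a d a i l) + if l = 0 then 0 else sm02a d a i (l - 1))

private theorem sm02a_gt (d : Derivation κ L L) (a : L) (i : ℕ) :
    ∀ l, i < l → sm02a d a i l = 0 := by
  induction i with
  | zero =>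
    intro l hl
    rw [sm02a, if_neg (by omega)]
  | succ i ih =>
    intro l hl
    rw [sm02a, ih l (by omega), map_zero, if_neg (by omega), ih (l - 1) (by omega), add_zero,
      mul_zero]

private theorem sm02a_diag (d : Derivation κ L L) (a : L) (i : ℕ) :
    sm02a d a i i = a ^ i := by
  induction i with
  | zero => rw [sm02a, if_pos rfl, pow_zero]
  | succ i ih =>
    rw [sm02a, sm02a_gt d a i (i + 1) (by omega), map_zero, if_neg (by omega), zero_add,
      Nat.add_sub_cancel, ih, pow_succ']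

private theorem sm02_iter (d : Derivation κ L L) (a y : L) (i : ℕ) : ∀ N, i < N →
    (⇑(a • d))^[i] y = ∑ l ∈ Finset.range N, sm02a d a i l * (⇑d)^[l] y := by
  induction i with
  | zero =>
    intro N hN
    rw [Finset.sum_eq_single 0]
    · rw [sm02a, if_pos rfl, one_mul]
      rfl
    · intro l _ hl
      rw [sm02a, if_neg hl, zero_mul]
    · intro h
      exact absurd (Finset.mem_range.2 hN) h
  | succ i ih =>
    intro N hN
    obtain ⟨M, rfl⟩ : ∃ M, N = M + 1 := ⟨N - 1, by omega⟩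
    rw [Function.iterate_succ_apply', ih M (by omega), map_sum]
    have h1 : ∀ l ∈ Finset.range (M + 1), sm02a d a (i + 1) l * (⇑d)^[l] y =
        a * (d (sm02a d a i l) * (⇑d)^[l] y) +
          a * ((if l = 0 then 0 else sm02a d a i (l - 1)) * (⇑d)^[l] y) := by
      intro l _
      rw [sm02a]
      ring
    rw [Finset.sum_congr rfl h1, Finset.sum_add_distrib, Finset.sum_range_succ,
      sm02a_gt d a i M (by omega), map_zero, zero_mul, mul_zero, add_zero,
      Finset.sum_range_succ' _ M, if_pos rfl, zero_mul, mul_zero, add_zero,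
      ← Finset.sum_add_distrib]
    refine Finset.sum_congr rfl fun l _ => ?_
    rw [Derivation.leibniz, if_neg (by omega), Nat.add_sub_cancel, Function.iterate_succ_apply',
      Derivation.smul_apply, Derivation.smul_apply]
    simp only [smul_eq_mul]
    ring

/-- **The Wronskian for the derivation `a • d`.** -/
theorem wr_smul (d : Derivation κ L L) {N : ℕ} (g : Fin N → L) (a : L) :
    wr (a • d) g = a ^ (∑ i : Fin N, (i : ℕ)) * wr d g := by
  have h1 : (Matrix.of fun i j : Fin N => (⇑(a • d))^[(i : ℕ)] (g j)) =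
      (Matrix.of fun i l : Fin N => sm02a d a i l) *
        (Matrix.of fun i j : Fin N => (⇑d)^[(i : ℕ)] (g j)) := by
    ext i j
    rw [Matrix.mul_apply, Matrix.of_apply, sm02_iter d a (g j) i N i.2, Finset.sum_range]
    rfl
  have h2 : Matrix.det (Matrix.of fun i l : Fin N => sm02a d a i l) =
      a ^ (∑ i : Fin N, (i : ℕ)) := by
    rw [Matrix.det_of_isLowerTriangular]
    · rw [← Finset.prod_pow_eq_pow_sum]
      refine Finset.prod_congr rfl fun i _ => ?_
      rw [Matrix.of_apply, sm02a_diag]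
    · intro i j hij
      rw [Matrix.of_apply]
      exact sm02a_gt d a i j (by simpa using hij)
  unfold wr
  rw [h1, Matrix.det_mul, h2]

/-- a matrix which is modulo the maximal ideal triangular with units on the diagonal -/
theorem det_unit (v : Valuation L ℤᵐ⁰) {N : ℕ} (H : Matrix (Fin N) (Fin N) L)
    (h1 : ∀ i j, v (H i j) ≤ 1) (h2 : ∀ i j, i < j → v (H i j) < 1) (h3 : ∀ i, v (H i i) = 1) :
    v H.det = 1 := by
  classical
  rw [Matrix.det_apply, ← Finset.add_sum_erase _ _ (Finset.mem_univ (1 : Equiv.Perm (Fin N)))]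
  have h4 : v (Equiv.Perm.sign (1 : Equiv.Perm (Fin N)) •
      ∏ i, H ((1 : Equiv.Perm (Fin N)) i) i) = 1 := by
    rw [Equiv.Perm.sign_one, one_smul, map_prod]
    exact Finset.prod_eq_one fun i _ => h3 i
  rw [Valuation.map_add_eq_of_lt_left v, h4]
  rw [h4]
  refine Valuation.map_sum_lt v one_ne_zero fun σ hσ => ?_
  have hσ1 : σ ≠ 1 := Finset.ne_of_mem_erase hσ
  have h5 : v (Equiv.Perm.sign σ • ∏ i, H (σ i) i) = v (∏ i, H (σ i) i) := by
    rcases Int.units_eq_one_or (Equiv.Perm.sign σ) with h0 | h0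
    · rw [h0, one_smul]
    · rw [h0, Units.neg_smul, one_smul, Valuation.map_neg]
  obtain ⟨i, hi⟩ : ∃ i, σ i < i := by
    by_contra hcon
    push Not at hcon
    apply hσ1
    have h6 : ∑ i : Fin N, ((σ i : Fin N) : ℕ) = ∑ i : Fin N, (i : ℕ) :=
      Equiv.sum_comp σ fun i : Fin N => (i : ℕ)
    have h7 := (Finset.sum_eq_sum_iff_of_le (s := (Finset.univ : Finset (Fin N)))
      (f := fun i : Fin N => (i : ℕ)) (g := fun i : Fin N => ((σ i : Fin N) : ℕ))
      (fun i _ => hcon i)).1 h6.symm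
    ext i
    rw [Equiv.Perm.one_apply]
    exact (h7 i (Finset.mem_univ i)).symm
  rw [h5, map_prod, ← Finset.mul_prod_erase _ _ (Finset.mem_univ i)]
  calc v (H (σ i) i) * ∏ x ∈ Finset.univ.erase i, v (H (σ x) x) ≤ v (H (σ i) i) * 1 :=
        mul_le_mul' le_rfl (Finset.prod_le_one' fun x _ => h1 _ _)
    _ < 1 := by
      rw [mul_one]
      exact h2 _ _ hi

end Wr

section Loc

variable {κ M : Type*} [Field κ] [Field M] [Algebra κ M]

/-- elements with different orders are linearly independent -/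
theorem indep_of_orders (w : Place κ M) {N : ℕ} {g : Fin N → M} {e : ℤ}
    (hg : ∀ j : Fin N, w.1 (g j) = exp (e - ((j : ℕ) : ℤ))) : LinearIndependent κ g := by
  classical
  rw [Fintype.linearIndependent_iff]
  intro c hc
  by_contra hcon
  push Not at hcon
  obtain ⟨j, hj, hmin⟩ : ∃ j, c j ≠ 0 ∧ ∀ i, i < j → c i = 0 := by
    obtain ⟨j, hj, hm⟩ := WellFounded.has_min (wellFounded_lt (α := Fin N)) {j | c j ≠ 0} hcon
    exact ⟨j, hj, fun i hi => by
      by_contra h
      exact hm i h hi⟩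
  rw [← Finset.add_sum_erase _ _ (Finset.mem_univ j)] at hc
  have h1 : ∀ (i : Fin N) (b : κ), b ≠ 0 → w.1 (b • g i) = w.1 (g i) := by
    intro i b hb
    rw [Algebra.smul_def, map_mul, w.2.2 b hb, one_mul]
  have h2 : w.1 (∑ i ∈ Finset.univ.erase j, c i • g i) < w.1 (c j • g j) := by
    rw [h1 j _ hj, hg]
    refine Valuation.map_sum_lt w.1 exp_ne_zero fun i hi => ?_
    by_cases h3 : c i = 0
    · rw [h3, zero_smul, map_zero]
      exact exp_pos
    · rw [h1 i _ h3, hg, exp_lt_exp]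
      have h4 : j < i := by
        rcases lt_trichotomy i j with h5 | h5 | h5
        · exact absurd (hmin i h5) h3
        · exact absurd h5 (Finset.ne_of_mem_erase hi)
        · exact h5
      have h5 : ((j : ℕ) : ℤ) < ((i : ℕ) : ℤ) := by exact_mod_cast h4
      linarith
  have h3 := Valuation.map_add_eq_of_lt_left w.1 h2
  rw [hc, map_zero, h1 j _ hj, hg] at h3
  exact exp_ne_zero h3.symm

/-- the local Wronskian -/
theorem wr_unit (w : Place κ M) (d : Derivation κ M M) (ha : ∀ y, w.1 y ≤ 1 → w.1 (d y) ≤ 1)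
    (hb : ∀ y, w.1 y ≠ 1 → w.1 (d y) = w.1 y * exp 1) {N : ℕ} {h : Fin N → M}
    (hh : ∀ j : Fin N, w.1 (h j) = exp (-((j : ℕ) : ℤ))) : w.1 (wr d h) = 1 := by
  have h1 : ∀ (i : ℕ) (y : M), w.1 y ≤ 1 → w.1 ((⇑d)^[i] y) ≤ 1 := by
    intro i
    induction i with
    | zero => exact fun y hy => hy
    | succ i ih =>
      intro y hy
      rw [Function.iterate_succ_apply']
      exact ha _ (ih y hy)
  have h2 : ∀ (j : Fin N) (i : ℕ), i ≤ (j : ℕ) → w.1 ((⇑d)^[i] (h j)) = exp ((i : ℤ) - (j : ℕ)) := by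
    intro j i
    induction i with
    | zero =>
      intro _
      rw [Function.iterate_zero_apply, hh, Nat.cast_zero, zero_sub]
    | succ i ih =>
      intro hi
      rw [Function.iterate_succ_apply', hb, ih (by omega), ← exp_add]
      · congr 1
        push_cast
        ring
      · rw [ih (by omega), ← exp_zero, Ne, exp_inj]
        omega
  refine det_unit w.1 _ (fun i j => ?_) (fun i j hij => ?_) fun i => ?_
  · rw [Matrix.of_apply]
    refine h1 _ _ ?_
    rw [hh, ← exp_zero, exp_le_exp]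
    omega
  · rw [Matrix.of_apply, h2 j i (by exact_mod_cast hij.le), ← exp_zero, exp_lt_exp]
    have h3 : (i : ℕ) < (j : ℕ) := by exact_mod_cast hij
    omega
  · rw [Matrix.of_apply, h2 i i le_rfl, sub_self, exp_zero]

/-- the Wronskian at a place of a family with orders `0, …, N - 1` -/
theorem wr_place (w : Place κ M) (D' : Derivation κ M M) {k : ℤ}
    (h1 : ∀ y, w.1 y ≠ 1 → w.1 (D' y) = w.1 y * exp (k + 1))
    (h3 : ∀ y, w.1 y ≤ 1 → w.1 (D' y) ≤ exp k) {N n : ℕ} {g : Fin N → M}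
    (hg : ∀ j : Fin N, w.1 (g j) = exp (n * k - ((j : ℕ) : ℤ))) :
    w.1 (wr D' g) = exp ((n * N + ∑ i : Fin N, (i : ℕ) : ℕ) * k) := by
  obtain ⟨π, hπ⟩ := w.2.1 (exp (-1 : ℤ))
  have hva : w.1 (D' π) = exp k := by
    rw [h1 π, hπ, ← exp_add]
    · congr 1
      ring
    · rw [hπ, ← exp_zero, Ne, exp_inj]
      omega
  obtain ⟨a, ha⟩ : ∃ a, a = D' π := ⟨_, rfl⟩
  rw [← ha] at hva
  have ha0 : a ≠ 0 := by
    rintro rfl
    rw [map_zero] at hva
    exact exp_ne_zero hva.symm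
  have hvi : w.1 a⁻¹ = exp (-k) := by rw [map_inv₀, hva, exp_neg]
  have hD : D' = a • (a⁻¹ • D') := by
    rw [smul_smul, mul_inv_cancel₀ ha0, one_smul]
  have hgj : g = fun j => a ^ n * (g j / a ^ n) := by
    funext j
    rw [mul_div_cancel₀ _ (pow_ne_zero n ha0)]
  have h4 : w.1 (wr (a⁻¹ • D') fun j => g j / a ^ n) = 1 := by
    refine wr_unit w (a⁻¹ • D') (fun y hy => ?_) (fun y hy => ?_) fun j => ?_
    · rw [Derivation.smul_apply, smul_eq_mul, map_mul, hvi]
      calc exp (-k) * w.1 (D' y) ≤ exp (-k) * exp k := mul_le_mul' le_rfl (h3 y hy)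
        _ = 1 := by rw [← exp_add, neg_add_cancel, exp_zero]
    · rw [Derivation.smul_apply, smul_eq_mul, map_mul, hvi, h1 y hy, exp_add,
        mul_left_comm, ← mul_assoc (exp (-k)), ← exp_add, neg_add_cancel, exp_zero, one_mul]
    · rw [map_div₀, map_pow, hva, hg, ← exp_nsmul, ← exp_sub]
      congr 1
      rw [nsmul_eq_mul]
      ring
  rw [hgj, wr_mul]
  conv_lhs => rw [hD]
  rw [wr_smul, map_mul, map_mul, h4, mul_one, map_pow, map_pow, map_pow, hva, ← pow_mul,
    ← pow_add, ← exp_nsmul, nsmul_eq_mul]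

end Loc

section Der

variable {κ M : Type*} [Field κ] [Field M] [Algebra κ M]

/-- the commutator of a derivation which preserves the constants with a derivation over the
constants -/
theorem der_comm [IsAlgClosed κ] [CharZero κ] (hFF : IsFF κ M) (D' : Derivation κ M M) {t : M}
    (ht : D' t = 1) (D : Derivation ℤ M M)
    (hDF : ∀ c : κ, ∃ c' : κ, D (algebraMap κ M c) = algebraMap κ M c') (y : M) :
    D (D' y) = D' (D y) - D' (D t) * D' y := by
  have hκ : ∀ c : κ, D' (algebraMap κ M c) = 0 := fun c => D'.map_algebraMap c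
  let E : Derivation κ M M := Derivation.mk'
    { toFun := fun y => D (D' y) - D' (D y) + D' (D t) * D' y
      map_add' := fun x y => by
        simp only [map_add]
        ring
      map_smul' := fun c y => by
        obtain ⟨c', hc'⟩ := hDF c
        rw [RingHom.id_apply, Algebra.smul_def, Algebra.smul_def]
        simp only [Derivation.leibniz, hκ, hc', smul_eq_mul, map_add, mul_zero, add_zero]
        ring }
    (fun x y => by
      simp only [LinearMap.coe_mk, AddHom.coe_mk, Derivation.leibniz, smul_eq_mul, map_add]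
      ring)
  have hE : ∀ y, E y = D (D' y) - D' (D y) + D' (D t) * D' y := fun _ => rfl
  have hEt : E t = 0 := by
    rw [hE, ht, mul_one, Derivation.map_one_eq_zero]
    ring
  have hE0 : E y = 0 := by
    by_contra h
    obtain ⟨c, hc⟩ := mason_const hFF E h hEt
    rw [← hc, hκ] at ht
    exact zero_ne_one ht
  rw [hE] at hE0
  linear_combination hE0

/-- the value of `D` at a uniformiser, if the place is not horizontal -/
theorem der_unif_of_not (w : Place κ M) (D : Derivation ℤ M M)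
    (hreg : ∀ u, w.1 u ≤ 1 → w.1 (D u) ≤ 1) {u : M} (hu : w.1 u < 1) (hDu : 1 ≤ w.1 (D u))
    {π : M} (hπ : w.1 π = exp (-1 : ℤ)) : w.1 (D π) = 1 := by
  have hπ0 : π ≠ 0 := by
    rintro rfl
    rw [map_zero] at hπ
    exact exp_ne_zero hπ.symm
  have hlt : exp (-1 : ℤ) < (1 : ℤᵐ⁰) := by
    rw [← exp_zero, exp_lt_exp]
    norm_num
  have hu1 : w.1 u ≤ exp (-1 : ℤ) := by
    have h1 : w.1 u < exp (-1 : ℤ) * exp 1 := by
      rw [← exp_add]
      simpa using hu
    exact (lt_mul_exp_iff_le exp_ne_zero).1 h1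
  have hz : w.1 (u / π) ≤ 1 := by
    rw [map_div₀, hπ]
    exact div_le_one_of_le₀ hu1 zero_le
  have h1 : D u = π * D (u / π) + (u / π) * D π := by
    conv_lhs => rw [← mul_div_cancel₀ u hπ0]
    rw [Derivation.leibniz, smul_eq_mul, smul_eq_mul]
  refine le_antisymm (hreg π (by rw [hπ]; exact hlt.le)) ?_
  by_contra hcon
  push Not at hcon
  refine absurd hDu (not_le.2 ?_)
  rw [h1]
  refine (w.1.map_add _ _).trans_lt (max_lt ?_ ?_)
  · rw [map_mul, hπ]
    calc exp (-1 : ℤ) * w.1 (D (u / π)) ≤ exp (-1 : ℤ) * 1 := mul_le_mul' le_rfl (hreg _ hz)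
      _ < 1 := by rwa [mul_one]
  · rw [map_mul]
    calc w.1 (u / π) * w.1 (D π) ≤ 1 * w.1 (D π) := mul_le_mul' hz le_rfl
      _ < 1 := by rwa [one_mul]

/-- `D` lowers the positive orders by one -/
theorem der_order (w : Place κ M) [CharZero κ] (D : Derivation ℤ M M)
    (hreg : ∀ u, w.1 u ≤ 1 → w.1 (D u) ≤ 1) {π : M} (hπ : w.1 π = exp (-1 : ℤ))
    (hDπ : w.1 (D π) = 1) {y : M} {k : ℕ} (hy : w.1 y = exp (-((k + 1 : ℕ) : ℤ))) :
    w.1 (D y) = exp (-(k : ℤ)) := by
  have hπ0 : π ≠ 0 := by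
    rintro rfl
    rw [map_zero] at hπ
    exact exp_ne_zero hπ.symm
  have hπk : ∀ m : ℕ, w.1 (π ^ m) = exp (-(m : ℤ)) := by
    intro m
    rw [map_pow, hπ, ← exp_nsmul, nsmul_eq_mul]
    congr 1
    ring
  obtain ⟨z, hz⟩ : ∃ z, z = y / π ^ (k + 1) := ⟨_, rfl⟩
  have hvz : w.1 z = 1 := by
    rw [hz, map_div₀, hy, hπk, div_self exp_ne_zero]
  have hyz : y = π ^ (k + 1) * z := by
    rw [hz, mul_div_cancel₀ _ (pow_ne_zero _ hπ0)]
  have h1 : D y = (((k + 1 : ℕ) : M) * π ^ k * D π) * z + π ^ (k + 1) * D z := by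
    rw [hyz, Derivation.leibniz, Derivation.leibniz_pow, Nat.add_sub_cancel]
    simp only [smul_eq_mul, nsmul_eq_mul]
    ring
  have hk : w.1 (((k + 1 : ℕ) : M)) = 1 := by
    have h2 := w.2.2 ((k + 1 : ℕ) : κ) (Nat.cast_ne_zero.2 (Nat.succ_ne_zero k))
    rwa [map_natCast] at h2
  have h2 : w.1 ((((k + 1 : ℕ) : M) * π ^ k * D π) * z) = exp (-(k : ℤ)) := by
    rw [map_mul, map_mul, map_mul, hk, hπk, hDπ, hvz, one_mul, mul_one, mul_one]
  rw [h1, Valuation.map_add_eq_of_lt_left w.1, h2]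
  rw [h2, map_mul, hπk]
  calc exp (-((k + 1 : ℕ) : ℤ)) * w.1 (D z) ≤ exp (-((k + 1 : ℕ) : ℤ)) * 1 :=
        mul_le_mul' le_rfl (hreg z hvz.le)
    _ < exp (-(k : ℤ)) := by
      rw [mul_one, exp_lt_exp]
      push_cast
      linarith

/-- the connection `∇ s = D s + n D' (D t) s` at a place -/
theorem nabla_place [IsAlgClosed κ] [CharZero κ] (hFF : IsFF κ M) (w : Place κ M)
    (D' : Derivation κ M M) {t : M} (ht : D' t = 1) {k : ℤ}
    (h1 : ∀ y, w.1 y ≠ 1 → w.1 (D' y) = w.1 y * exp (k + 1))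
    (h3 : ∀ y, w.1 y ≤ 1 → w.1 (D' y) ≤ exp k) (D : Derivation ℤ M M)
    (hDF : ∀ c : κ, ∃ c' : κ, D (algebraMap κ M c) = algebraMap κ M c')
    (hreg : ∀ u, w.1 u ≤ 1 → w.1 (D u) ≤ 1) {u : M} (hu : w.1 u < 1) (hDu : 1 ≤ w.1 (D u))
    (n : ℕ) (s : M) :
    (w.1 s ≤ exp ((n + 1 : ℕ) * k) →
      w.1 (D s + (n + 1 : ℕ) * D' (D t) * s) ≤ exp ((n + 1 : ℕ) * k)) ∧
    ∀ m : ℕ, w.1 s = exp ((n + 1 : ℕ) * k - (m + 1 : ℕ)) →
      w.1 (D s + (n + 1 : ℕ) * D' (D t) * s) = exp ((n + 1 : ℕ) * k - m) := by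
  obtain ⟨π, hπ⟩ := w.2.1 (exp (-1 : ℤ))
  have hDπ := der_unif_of_not w D hreg hu hDu hπ
  obtain ⟨a, ha⟩ : ∃ a, a = D' π := ⟨_, rfl⟩
  have hva : w.1 a = exp k := by
    rw [ha, h1 π, hπ, ← exp_add]
    · congr 1
      ring
    · rw [hπ, ← exp_zero, Ne, exp_inj]
      omega
  have ha0 : a ≠ 0 := by
    rintro rfl
    rw [map_zero] at hva
    exact exp_ne_zero hva.symm
  have hDa : D a = D' (D π) - D' (D t) * a := by
    rw [ha]
    exact der_comm hFF D' ht D hDF π
  obtain ⟨b, hb⟩ : ∃ b, b = D' (D π) / a := ⟨_, rfl⟩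
  have hvb : w.1 b ≤ 1 := by
    rw [hb, map_div₀, hva]
    exact div_le_one_of_le₀ (h3 _ hDπ.le) zero_le
  have hba : D' (D π) = b * a := by rw [hb, div_mul_cancel₀ _ ha0]
  obtain ⟨g, hg⟩ : ∃ g, g = s / a ^ (n + 1) := ⟨_, rfl⟩
  have hsg : s = a ^ (n + 1) * g := by
    rw [hg, mul_div_cancel₀ _ (pow_ne_zero _ ha0)]
  have hvan : w.1 (a ^ (n + 1)) = exp ((n + 1 : ℕ) * k) := by
    rw [map_pow, hva, ← exp_nsmul, nsmul_eq_mul]
  have hn1 : w.1 (((n + 1 : ℕ) : M)) = 1 := by
    have h2 := w.2.2 ((n + 1 : ℕ) : κ) (Nat.cast_ne_zero.2 (Nat.succ_ne_zero n))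
    rwa [map_natCast] at h2
  have key : D s + (n + 1 : ℕ) * D' (D t) * s =
      a ^ (n + 1) * (D g + (n + 1 : ℕ) * b * g) := by
    rw [hsg, Derivation.leibniz, Derivation.leibniz_pow, Nat.add_sub_cancel, hDa, hba]
    simp only [smul_eq_mul, nsmul_eq_mul]
    ring
  have hvs : w.1 s = exp ((n + 1 : ℕ) * k) * w.1 g := by
    rw [hsg, map_mul, hvan]
  have hbg : w.1 ((n + 1 : ℕ) * b * g) ≤ w.1 g := by
    rw [map_mul, map_mul, hn1, one_mul]
    calc w.1 b * w.1 g ≤ 1 * w.1 g := mul_le_mul' hvb le_rfl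
      _ = w.1 g := one_mul _
  rw [key, map_mul, hvan]
  refine ⟨fun h => ?_, fun m h => ?_⟩
  · have hvg : w.1 g ≤ 1 := by
      rw [hg, map_div₀, hvan]
      exact div_le_one_of_le₀ h zero_le
    calc exp ((n + 1 : ℕ) * k) * w.1 (D g + (n + 1 : ℕ) * b * g) ≤
          exp ((n + 1 : ℕ) * k) * 1 := by
          refine mul_le_mul' le_rfl ((w.1.map_add _ _).trans (max_le (hreg g hvg) ?_))
          exact hbg.trans hvg
      _ = _ := mul_one _
  · have hvg : w.1 g = exp (-((m + 1 : ℕ) : ℤ)) := by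
      rw [hg, map_div₀, hvan, h, ← exp_sub]
      congr 1
      push_cast
      ring
    have hDg := der_order w D hreg hπ hDπ hvg
    rw [Valuation.map_add_eq_of_lt_left w.1, hDg, ← exp_add]
    · congr 1
    · rw [hDg]
      refine hbg.trans_lt ?_
      rw [hvg, exp_lt_exp]
      push_cast
      linarith

end Der

section Glob

variable {κ M : Type*} [Field κ] [IsAlgClosed κ] [CharZero κ] [Field M] [Algebra κ M]

omit [IsAlgClosed κ] [CharZero κ] in
private theorem sm02_nsmul (D : Place κ M →₀ ℤ) (m : ℕ) : divDeg (m • D) = m * divDeg D := by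
  induction m with
  | zero =>
    rw [zero_smul, Nat.cast_zero, zero_mul]
    rfl
  | succ m ih =>
    rw [succ_nsmul, divDeg_add, ih]
    push_cast
    ring

/-- The orders at `w` of the elements of a Riemann-Roch space which is stable under an operator
which lowers the positive orders by one. -/
theorem exists_orders (hFF : IsFF κ M) (𝔇 : Place κ M →₀ ℤ) (w : Place κ M) (T : M → M)
    (hT : ∀ s ∈ rr 𝔇, T s ∈ rr 𝔇)
    (hTw : ∀ (s : M) (m : ℕ), w.1 s = exp (𝔇 w - (m + 1 : ℕ)) → w.1 (T s) = exp (𝔇 w - m))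
    (hpos : 1 ≤ finrank κ (rr 𝔇)) :
    ∃ g : Fin (finrank κ (rr 𝔇)) → M, (∀ j, g j ∈ rr 𝔇) ∧
      ∀ j, w.1 (g j) = exp (𝔇 w - ((j : ℕ) : ℤ)) := by
  classical
  have hfin := finite_rr hFF 𝔇
  -- the orders are bounded
  have hP : ∃ m : ℕ, ∀ s ∈ rr 𝔇, s ≠ 0 → exp (𝔇 w - m) ≤ w.1 s := by
    refine ⟨(divDeg 𝔇).toNat, fun s hs hs0 => ?_⟩
    by_contra hcon
    push Not at hcon
    have h1 : s ∈ rr (𝔇 - Finsupp.single w ((divDeg 𝔇).toNat + 1 : ℤ)) := by
      intro v
      by_cases hv : v = w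
      · rw [hv, Finsupp.sub_apply, Finsupp.single_eq_same]
        have h2 : w.1 s < exp (𝔇 w - ((divDeg 𝔇).toNat + 1 : ℤ)) * exp 1 := by
          rw [← exp_add]
          convert hcon using 2
          ring
        exact (lt_mul_exp_iff_le exp_ne_zero).1 h2
      · rw [Finsupp.sub_apply, Finsupp.single_eq_of_ne hv, sub_zero]
        exact hs v
    rw [rr_of_neg hFF, Submodule.mem_bot] at h1
    · exact hs0 h1
    · have h2 : divDeg (𝔇 - Finsupp.single w ((divDeg 𝔇).toNat + 1 : ℤ)) +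
          divDeg (Finsupp.single w ((divDeg 𝔇).toNat + 1 : ℤ)) = divDeg 𝔇 := by
        rw [← divDeg_add, sub_add_cancel]
      rw [divDeg_single] at h2
      have h3 := Int.self_le_toNat (divDeg 𝔇)
      linarith
  obtain ⟨m, hm, hmin⟩ : ∃ m : ℕ, (∀ s ∈ rr 𝔇, s ≠ 0 → exp (𝔇 w - m) ≤ w.1 s) ∧
      ∀ k, k < m → ¬ ∀ s ∈ rr 𝔇, s ≠ 0 → exp (𝔇 w - k) ≤ w.1 s :=
    ⟨Nat.find hP, Nat.find_spec hP, fun k hk => Nat.find_min hP hk⟩
  -- an element with maximal order
  obtain ⟨s, hs, hsm⟩ : ∃ s ∈ rr 𝔇, w.1 s = exp (𝔇 w - m) := by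
    rcases Nat.eq_zero_or_pos m with hm0 | hm0
    · obtain ⟨s, hs0⟩ : ∃ s : rr 𝔇, s ≠ 0 := by
        have : Nontrivial (rr 𝔇) := Module.nontrivial_of_finrank_pos (R := κ) hpos
        exact exists_ne 0
      refine ⟨s, s.2, le_antisymm ?_ (hm s s.2 fun h => hs0 (Subtype.ext h))⟩
      rw [hm0, Nat.cast_zero, sub_zero]
      exact s.2 w
    · obtain ⟨k, rfl⟩ : ∃ k, m = k + 1 := ⟨m - 1, by omega⟩
      have h1 := hmin k (by omega)
      push Not at h1
      obtain ⟨s, hs, hs0, hlt⟩ := h1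
      refine ⟨s, hs, le_antisymm ?_ (hm s hs hs0)⟩
      have h2 : w.1 s < exp (𝔇 w - ((k + 1 : ℕ) : ℤ)) * exp 1 := by
        rw [← exp_add]
        convert hlt using 2
        push_cast
        ring
      exact (lt_mul_exp_iff_le exp_ne_zero).1 h2
  have hit1 : ∀ i : ℕ, T^[i] s ∈ rr 𝔇 := by
    intro i
    induction i with
    | zero => exact hs
    | succ i ih =>
      rw [Function.iterate_succ_apply']
      exact hT _ ih
  have hit2 : ∀ i : ℕ, i ≤ m → w.1 (T^[i] s) = exp (𝔇 w - ((m - i : ℕ) : ℤ)) := by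
    intro i
    induction i with
    | zero =>
      intro _
      rw [Function.iterate_zero_apply, hsm, Nat.sub_zero]
    | succ i ih =>
      intro hi
      rw [Function.iterate_succ_apply']
      refine hTw _ _ ?_
      rw [ih (by omega)]
      congr 3
      omega
  -- the dimension
  have hN : finrank κ (rr 𝔇) = m + 1 := by
    apply le_antisymm
    · have h1 : (𝔇 - Finsupp.single w ((m + 1 : ℕ) : ℤ)) ≤ 𝔇 := by
        intro v
        by_cases hv : v = w
        · rw [hv, Finsupp.sub_apply, Finsupp.single_eq_same]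
          push_cast
          linarith
        · rw [Finsupp.sub_apply, Finsupp.single_eq_of_ne hv, sub_zero]
      have h2 := finrank_rr_le hFF h1
      have h3 : rr (𝔇 - Finsupp.single w ((m + 1 : ℕ) : ℤ)) = ⊥ := by
        rw [eq_bot_iff]
        intro y hy
        rw [Submodule.mem_bot]
        by_contra hy0
        have h4 := hm y (rr_mono h1 hy) hy0
        have h5 := hy w
        rw [Finsupp.sub_apply, Finsupp.single_eq_same] at h5
        have h6 := h4.trans h5
        rw [exp_le_exp] at h6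
        push_cast at h6
        linarith
      have h4 : divDeg (𝔇 - Finsupp.single w ((m + 1 : ℕ) : ℤ)) +
          divDeg (Finsupp.single w ((m + 1 : ℕ) : ℤ)) = divDeg 𝔇 := by
        rw [← divDeg_add, sub_add_cancel]
      rw [divDeg_single] at h4
      rw [h3, finrank_bot] at h2
      have h5 : (finrank κ (rr 𝔇) : ℤ) ≤ ((m + 1 : ℕ) : ℤ) := by
        push_cast at h2 h4 ⊢
        linarith
      exact_mod_cast h5
    · have h1 : LinearIndependent κ fun j : Fin (m + 1) => T^[m - (j : ℕ)] s :=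
        indep_of_orders w (e := 𝔇 w) fun j => by
          rw [hit2 _ (Nat.sub_le _ _)]
          congr 3
          omega
      have h2 : LinearIndependent κ fun j : Fin (m + 1) =>
          (⟨T^[m - (j : ℕ)] s, hit1 _⟩ : rr 𝔇) :=
        LinearIndependent.of_comp (Submodule.subtype _) h1
      have h3 := h2.fintype_card_le_finrank
      rwa [Fintype.card_fin] at h3
  refine ⟨fun j => T^[m - (j : ℕ)] s, fun j => hit1 _, fun j => ?_⟩
  rw [hit2 _ (Nat.sub_le _ _)]
  congr 3
  have := j.2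
  omega

/-- **A horizontal place**, in terms of the canonical divisor. -/
theorem horizontal_of_canon (hFF : IsFF κ M) (D' : Derivation κ M M) {t : M} (ht : D' t = 1)
    (𝔎 : Place κ M →₀ ℤ) (h𝔎 : 1 ≤ divDeg 𝔎)
    (h1 : ∀ (v : Place κ M) y, v.1 y ≠ 1 → v.1 (D' y) = v.1 y * exp (𝔎 v + 1))
    (h3 : ∀ (v : Place κ M) y, v.1 y ≤ 1 → v.1 (D' y) ≤ exp (𝔎 v)) (D : Derivation ℤ M M)
    (hDF : ∀ c : κ, ∃ c' : κ, D (algebraMap κ M c) = algebraMap κ M c')
    (hreg : ∀ (v : Place κ M) u, v.1 u ≤ 1 → v.1 (D u) ≤ 1) :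
    ∃ v : Place κ M, ∀ u, v.1 u < 1 → v.1 (D u) < 1 := by
  classical
  by_contra hcon
  push Not at hcon
  obtain ⟨n, hn⟩ : ∃ n, n = genus κ M := ⟨_, rfl⟩
  have hval : ∀ v : Place κ M, ((n + 1) • 𝔎) v = ((n + 1 : ℕ) : ℤ) * 𝔎 v := by
    intro v
    rw [Finsupp.smul_apply, nsmul_eq_mul]
  obtain ⟨T, hT⟩ : ∃ T : M → M, ∀ s, T s = D s + (n + 1 : ℕ) * D' (D t) * s := ⟨_, fun _ => rfl⟩
  have hloc : ∀ (v : Place κ M) (s : M), (v.1 s ≤ exp ((n + 1 : ℕ) * 𝔎 v) →
      v.1 (T s) ≤ exp ((n + 1 : ℕ) * 𝔎 v)) ∧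
    ∀ m : ℕ, v.1 s = exp ((n + 1 : ℕ) * 𝔎 v - (m + 1 : ℕ)) →
      v.1 (T s) = exp ((n + 1 : ℕ) * 𝔎 v - m) := by
    intro v s
    obtain ⟨u, hu, hDu⟩ := hcon v
    rw [hT]
    exact nabla_place hFF v D' ht (h1 v) (h3 v) D hDF (hreg v) hu hDu n s
  have hTV : ∀ s ∈ rr ((n + 1) • 𝔎), T s ∈ rr ((n + 1) • 𝔎) := by
    intro s hs v
    have h4 := hs v
    rw [hval] at h4 ⊢
    exact (hloc v s).1 h4
  have hN : 1 ≤ finrank κ (rr ((n + 1) • 𝔎)) := by
    have h4 := genus_spec hFF ((n + 1) • 𝔎)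
    rw [sm02_nsmul, ← hn] at h4
    have h5 : ((n + 1 : ℕ) : ℤ) * 1 ≤ ((n + 1 : ℕ) : ℤ) * divDeg 𝔎 :=
      mul_le_mul_of_nonneg_left h𝔎 (Int.natCast_nonneg _)
    have h6 : (1 : ℤ) ≤ finrank κ (rr ((n + 1) • 𝔎)) := by
      push_cast at h4 h5
      linarith
    exact_mod_cast h6
  obtain ⟨N, hNN⟩ : ∃ N, N = finrank κ (rr ((n + 1) • 𝔎)) := ⟨_, rfl⟩
  have hfin := finite_rr hFF ((n + 1) • 𝔎)
  let b : Basis (Fin (finrank κ (rr ((n + 1) • 𝔎)))) κ (rr ((n + 1) • 𝔎)) :=
    Module.finBasis κ (rr ((n + 1) • 𝔎))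
  obtain ⟨φ, hφ⟩ : ∃ φ : Fin (finrank κ (rr ((n + 1) • 𝔎))) → M, ∀ j, φ j = (b j : M) :=
    ⟨_, fun _ => rfl⟩
  have hφ1 : LinearIndependent κ φ := by
    have h4 := b.linearIndependent.map' (Submodule.subtype _) (Submodule.ker_subtype _)
    have h5 : φ = ⇑(Submodule.subtype (rr ((n + 1) • 𝔎))) ∘ ⇑b := by
      funext j
      exact hφ j
    rw [h5]
    exact h4
  have hφ2 : ∀ y ∈ rr ((n + 1) • 𝔎), y ∈ Submodule.span κ (Set.range φ) := by
    intro y hy
    have h4 := b.sum_repr ⟨y, hy⟩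
    have h5 : y = ∑ i, b.repr ⟨y, hy⟩ i • φ i := by
      refine (congrArg Subtype.val h4).symm.trans ?_
      rw [Submodule.coe_sum]
      refine Finset.sum_congr rfl fun i _ => ?_
      rw [Submodule.coe_smul, hφ]
    rw [h5]
    exact Submodule.sum_mem _ fun i _ =>
      Submodule.smul_mem _ _ (Submodule.subset_span (Set.mem_range_self i))
  have hconst : ∀ y, D' y = 0 → ∃ c, algebraMap κ M c = y := fun y hy =>
    mason_const hFF D' (s := t) (by rw [ht]; exact one_ne_zero) hy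
  have hW := wr_ne_zero D' hconst hφ1
  obtain ⟨e, he⟩ : ∃ e : ℕ, e = (n + 1) * finrank κ (rr ((n + 1) • 𝔎)) +
      ∑ i : Fin (finrank κ (rr ((n + 1) • 𝔎))), (i : ℕ) := ⟨_, rfl⟩
  have hWv : ∀ v : Place κ M, log (v.1 (wr D' φ)) = e * 𝔎 v := by
    intro v
    obtain ⟨g, hg1, hg2⟩ := exists_orders hFF ((n + 1) • 𝔎) v T hTV
      (fun s m hs => by
        rw [hval] at hs ⊢
        exact (hloc v s).2 m hs) hN
    have hg3 : ∀ j, v.1 (g j) = exp (((n + 1 : ℕ) : ℤ) * 𝔎 v - ((j : ℕ) : ℤ)) := by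
      intro j
      rw [hg2, hval]
    have h4 := wr_place v D' (h1 v) (h3 v) hg3
    obtain ⟨c, hc0, hc⟩ := wr_basis D' (g := φ) (g' := g) (indep_of_orders v hg3)
      fun j => hφ2 _ (hg1 j)
    rw [hc, map_mul, v.2.2 c hc0, one_mul] at h4
    rw [h4, log_exp, he]
  have h4 := hFF.product_formula hW
  rw [finsum_congr hWv, ← mul_finsum, ← divDeg_eq_finsum_gr2] at h4
  have he1 : 1 ≤ e := by
    rw [he]
    have : 1 ≤ (n + 1) * finrank κ (rr ((n + 1) • 𝔎)) := Nat.mul_pos (Nat.succ_pos n) hN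
    omega
  have h5 : (0 : ℤ) < e * divDeg 𝔎 := by
    have h6 : (0 : ℤ) < e := by exact_mod_cast he1
    positivity
  exact h5.ne' h4

end Glob

/-- **A horizontal place.** `D` is a derivation of the function field `M`, preserves `F` and is
regular at all places; the canonical degree is positive. Then `D` maps the maximal ideal of some
place to itself. -/
theorem exists_horizontal {F M : Type*} [Field F] [IsAlgClosed F] [CharZero F] [Field M]
    [Algebra F M] [Algebra (RatFunc F) M] [IsScalarTower F (RatFunc F) M]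
    [FiniteDimensional (RatFunc F) M] (D : Derivation ℤ M M)
    (hDF : ∀ c : F, ∃ c' : F, D (algebraMap F M c) = algebraMap F M c')
    (hreg : ∀ (v : Place F M) u, v.1 u ≤ 1 → v.1 (D u) ≤ 1)
    (hdeg : 1 ≤ (ramDeg F M (RatFunc F) : ℤ) - 2 * finrank (RatFunc F) M) :
    ∃ v : Place F M, ∀ u, v.1 u < 1 → v.1 (D u) < 1 := by
  have hFF := isFF_of_ratFunc F M
  let iX : Algebra F[X] M :=
    ((algebraMap (RatFunc F) M).comp (algebraMap F[X] (RatFunc F))).toAlgebra
  let iR : Algebra (Rinf F) M :=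
    ((algebraMap (RatFunc F) M).comp (algebraMap (Rinf F) (RatFunc F))).toAlgebra
  have t1 : IsScalarTower F[X] (RatFunc F) M := IsScalarTower.of_algebraMap_eq' rfl
  have t2 : IsScalarTower (Rinf F) (RatFunc F) M := IsScalarTower.of_algebraMap_eq' rfl
  have t3 : IsScalarTower F F[X] M := IsScalarTower.of_algebraMap_eq fun u => by
    rw [IsScalarTower.algebraMap_apply F (RatFunc F) M,
      IsScalarTower.algebraMap_apply F F[X] (RatFunc F)]
    rfl
  have hX : algebraMap F[X] M X = tL F M := by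
    show algebraMap (RatFunc F) M (algebraMap F[X] (RatFunc F) X) = _
    rw [RatFunc.algebraMap_X]
    rfl
  have htr : Transcendental F (tL F M) := transcendental_tL
  obtain ⟨D', hD'⟩ : ∃ D' : Derivation F M M, D' (tL F M) = 1 := by
    have h1 : AlgebraicIndependent F (fun _ : Unit => tL F M) :=
      algebraicIndependent_unique_type_iff.mpr htr
    have h2 : IsTranscendenceBasis F (fun _ : Unit => tL F M) := by
      obtain ⟨s, hs, hfin⟩ := hFF
      have h3 : Algebra.IsAlgebraic (IntermediateField.adjoin F {s}) M :=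
        Algebra.IsAlgebraic.of_finite _ _
      have h4 : IsTranscendenceBasis F (fun _ : Unit => s) := by
        rw [(algebraicIndependent_unique_type_iff.mpr hs :
          AlgebraicIndependent F (fun _ : Unit => s)).isTranscendenceBasis_iff_isAlgebraic,
          ← IntermediateField.isAlgebraic_adjoin_iff_top, Set.range_const]
        exact h3
      refine h1.isTranscendenceBasis_of_lift_trdeg_le_of_finite ?_
      rw [← h4.lift_cardinalMk_eq_trdeg]
    have h3 := h2.isAlgebraic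
    obtain ⟨D, hD⟩ := exists_derivation h1 (fun _ => 1)
    exact ⟨D, hD ()⟩
  obtain ⟨𝔎, hd, h𝔎⟩ := exists_canon (κ := F) (M := M) (D'.restrictScalars ℤ)
    (fun u => D'.map_algebraMap u) (by rw [hX]; exact hD')
  exact horizontal_of_canon hFF D' hD' 𝔎 (by rw [hd]; exact hdeg)
    (fun v => (h𝔎 v).1) (fun v => (h𝔎 v).2.2) D hDF hreg

end Pool.Agent.Lib.MP_44a246_ntSM
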