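import Mathlib
import Pool.Agent.Lib.MP_44a246_ntSH.PJ03

/-!
# STRONG SMT: auxiliary results for the valuation ring of germs
-/

namespace Pool.Agent.Lib.MP_44a246_ntSM

open Pool.Agent.Lib.MP_e52354_nt
open Pool.Agent.Lib.MP_44a246_nt
open Pool.Agent.Lib.MP_44a246_ntL
open Pool.Agent.Lib.MP_44a246_ntY
open Pool.Agent.Lib.MP_44a246_ntSH
open WithZero Module Polynomial

section Val

variable {L : Type*} [Field L] (v : Valuation L ℤᵐ⁰)

theorem log_add_le (f g : L) : log (v (f + g)) ≤ max 0 (max (log (v f)) (log (v g))) := by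
  by_cases h : v (f + g) = 0
  · rw [h, log_zero]
    exact le_max_left _ _
  refine le_max_of_le_right ?_
  have h1 := v.map_add f g
  rcases le_total (v f) (v g) with h2 | h2
  · rw [max_eq_right h2] at h1
    have h3 : v g ≠ 0 := fun h3 => h (le_antisymm (h1.trans_eq h3) zero_le)
    exact le_max_of_le_right ((log_le_log h h3).2 h1)
  · rw [max_eq_left h2] at h1
    have h3 : v f ≠ 0 := fun h3 => h (le_antisymm (h1.trans_eq h3) zero_le)
    exact le_max_of_le_left ((log_le_log h h3).2 h1)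

theorem log_mul_le (f g : L) : log (v (f * g)) ≤ max 0 (log (v f) + log (v g)) := by
  by_cases h : v (f * g) = 0
  · rw [h, log_zero]
    exact le_max_left _ _
  · refine le_max_of_le_right ?_
    rw [map_mul] at h ⊢
    rw [log_mul (left_ne_zero_of_mul h) (right_ne_zero_of_mul h)]

/-- the derivative of an element with a pole -/
theorem log_der_le (D : Derivation ℤ L L) {e : ℕ}
    (hreg : ∀ y, v y ≤ 1 → v (D y) ≤ exp (e : ℤ)) (f : L) :
    log (v (D f)) ≤ e + 2 * max 0 (log (v f)) := by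
  have he : (0 : ℤ) ≤ e := Int.natCast_nonneg e
  by_cases h0 : v (D f) = 0
  · rw [h0, log_zero]
    have := le_max_left 0 (log (v f))
    linarith
  rcases le_or_gt (v f) 1 with h1 | h1
  · have h2 : log (v (D f)) ≤ e := (log_le_iff_le_exp h0).2 (hreg f h1)
    have := le_max_left 0 (log (v f))
    linarith
  · have hf0 : v f ≠ 0 := (zero_lt_one.trans h1).ne'
    have hf : f ≠ 0 := fun h => hf0 (by rw [h, map_zero])
    have h2 : v f⁻¹ ≤ 1 := by
      rw [map_inv₀]
      exact inv_le_one_of_one_le₀ h1.le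
    have h3 : D f = - (f ^ 2 * D f⁻¹) := by
      have h4 := Derivation.leibniz_inv D f⁻¹
      rw [inv_inv, smul_eq_mul] at h4
      rw [h4]
      ring
    have h5 : v (D f) ≤ exp (e + 2 * log (v f)) := by
      rw [h3, Valuation.map_neg, map_mul, map_pow]
      calc v f ^ 2 * v (D f⁻¹) ≤ v f ^ 2 * exp (e : ℤ) := mul_le_mul' le_rfl (hreg _ h2)
        _ = exp (e + 2 * log (v f)) := by
          rw [exp_add, mul_comm, ← exp_log hf0, log_exp]
          congr 1
    have h6 := (log_le_iff_le_exp h0).2 h5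
    have h7 : 0 ≤ log (v f) := (le_log_iff_exp_le hf0).2 (by rw [exp_zero]; exact h1.le)
    rw [max_eq_right h7]
    exact h6

/-- the logarithmic derivative -/
theorem log_logder_le (hv : Function.Surjective v) (D : Derivation ℤ L L) {e : ℕ}
    (hreg : ∀ y, v y ≤ 1 → v (D y) ≤ exp (e : ℤ)) (f : L) :
    log (v (D f / f)) ≤ e + 1 := by
  have he : (0 : ℤ) ≤ e := Int.natCast_nonneg e
  by_cases hf : f = 0
  · rw [hf, div_zero, map_zero, log_zero]
    linarith
  obtain ⟨π, hπ⟩ := hv (exp (-1 : ℤ))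
  have hπ0 : π ≠ 0 := by
    rintro rfl
    rw [map_zero] at hπ
    exact exp_ne_zero hπ.symm
  have hvf : v f ≠ 0 := (v.ne_zero_iff).2 hf
  obtain ⟨k, hk⟩ : ∃ k : ℤ, k = - log (v f) := ⟨_, rfl⟩
  obtain ⟨u, hu⟩ : ∃ u : L, u = f / π ^ k := ⟨_, rfl⟩
  have hπk : v (π ^ k) = v f := by
    rw [map_zpow₀, hπ, ← exp_zsmul, hk, smul_eq_mul, mul_neg, neg_mul, neg_neg, mul_one,
      exp_log hvf]
  have hπk0 : π ^ k ≠ 0 := zpow_ne_zero k hπ0
  have huv : v u = 1 := by rw [hu, map_div₀, hπk, div_self hvf]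
  have hu0 : u ≠ 0 := fun h => by rw [h, map_zero] at huv; exact zero_ne_one huv
  have hfu : f = π ^ k * u := by rw [hu, mul_div_cancel₀ _ hπk0]
  have hzp : D (π ^ k) = π ^ k * ((k : L) * (D π / π)) := by
    have hnat : ∀ n : ℕ, D (π ^ n) = π ^ n * ((n : L) * (D π / π)) := by
      intro n
      rw [Derivation.leibniz_pow]
      rcases Nat.eq_zero_or_pos n with rfl | hn
      · simp
      · obtain ⟨m, rfl⟩ : ∃ m, n = m + 1 := ⟨n - 1, by omega⟩
        rw [Nat.add_sub_cancel, smul_eq_mul, nsmul_eq_mul, pow_succ]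
        field_simp
    obtain ⟨n, rfl | rfl⟩ := k.eq_nat_or_neg
    · rw [zpow_natCast, hnat]
      push_cast
      rfl
    · rw [zpow_neg, zpow_natCast, Derivation.leibniz_inv, hnat, smul_eq_mul]
      push_cast
      field_simp
  have h1 : D f / f = (k : L) * (D π / π) + D u / u := by
    rw [hfu, Derivation.leibniz, hzp, smul_eq_mul, smul_eq_mul]
    field_simp
    ring
  have hk1 : v (k : L) ≤ 1 := by
    have h2 : ∀ m : ℕ, v (m : L) ≤ 1 := by
      intro m
      induction m with
      | zero => simp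
      | succ m ih =>
        push_cast
        exact (v.map_add _ _).trans (max_le ih (by rw [map_one]))
    obtain ⟨m, rfl | rfl⟩ := k.eq_nat_or_neg
    · push_cast
      exact h2 m
    · push_cast
      rw [Valuation.map_neg]
      exact h2 m
  have h2 : v (D f / f) ≤ exp ((e : ℤ) + 1) := by
    rw [h1]
    refine (v.map_add _ _).trans (max_le ?_ ?_)
    · rw [map_mul, map_div₀, hπ]
      calc v (k : L) * (v (D π) / exp (-1)) ≤ 1 * (exp (e : ℤ) / exp (-1)) := by
            refine mul_le_mul' hk1 ?_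
            rw [div_eq_mul_inv, div_eq_mul_inv]
            refine mul_le_mul' (hreg π ?_) le_rfl
            rw [hπ, ← exp_zero, exp_le_exp]
            norm_num
        _ = exp ((e : ℤ) + 1) := by
            rw [one_mul, div_eq_mul_inv, ← exp_neg, neg_neg, exp_add]
    · rw [map_div₀, huv, div_one]
      refine (hreg u huv.le).trans ?_
      rw [exp_le_exp]
      linarith
  by_cases h0 : v (D f / f) = 0
  · rw [h0, log_zero]
    linarith
  · exact (log_le_iff_le_exp h0).2 h2

end Val

section Height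

variable {κ L : Type*} [Field κ] [IsAlgClosed κ] [CharZero κ] [Field L] [Algebra κ L]

/-- the sum of the absolute values of the logarithms -/
theorem finsum_abs_log_le (h : IsFF κ L) (y : L) :
    (Function.support fun w : Place κ L => |log (w.1 y)|).Finite ∧
      ∑ᶠ w : Place κ L, |log (w.1 y)| ≤ 2 * height κ ![1, y] := by
  by_cases hy : y = 0
  · have h1 : (fun w : Place κ L => |log (w.1 y)|) = fun _ => 0 := by
      funext w
      rw [hy, map_zero, log_zero, abs_zero]
    rw [h1, finsum_zero]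
    refine ⟨by simp, ?_⟩
    have := height_one_nonneg h y
    linarith
  have hs := h.place_support hy
  have hs1 : (Function.support fun w : Place κ L => |log (w.1 y)|).Finite :=
    hs.subset fun w hw h0 => hw (by simp only at h0 ⊢; rw [h0, abs_zero])
  refine ⟨hs1, ?_⟩
  have hs2 := log_max_support h y
  have h1 : ∀ w : Place κ L, |log (w.1 y)| = 2 * log (max 1 (w.1 y)) - log (w.1 y) := by
    intro w
    have hw : w.1 y ≠ 0 := (w.1.ne_zero_iff).2 hy
    rcases le_total (w.1 y) 1 with h2 | h2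
    · have h3 : log (w.1 y) ≤ 0 := (log_le_iff_le_exp hw).2 (by rw [exp_zero]; exact h2)
      rw [max_eq_left h2, log_one, abs_of_nonpos h3]
      ring
    · have h3 : 0 ≤ log (w.1 y) := (le_log_iff_exp_le hw).2 (by rw [exp_zero]; exact h2)
      rw [max_eq_right h2, abs_of_nonneg h3]
      ring
  have h2 : ∑ᶠ w : Place κ L, |log (w.1 y)| =
      ∑ᶠ w : Place κ L, 2 * log (max 1 (w.1 y)) - ∑ᶠ w : Place κ L, log (w.1 y) := by
    rw [← finsum_sub_distrib]
    · exact finsum_congr h1
    · exact hs2.subset fun w hw h0 => hw (by simp only at h0 ⊢; rw [h0, mul_zero])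
    · exact hs
  rw [h2, h.product_formula hy, sub_zero, ← mul_finsum, height_one]

end Height

section

variable {κ K Ω : Type*} [Field κ] [IsAlgClosed κ] [CharZero κ] [Field K] [Algebra κ K]
  [Field Ω] [Algebra K Ω] [Algebra κ Ω] [IsScalarTower κ K Ω] (W : Tow κ K Ω)

/-- a germ in `F0` of a sequence in `E N` has small heights -/
theorem height_of_mem_F0 [IsAlgClosed Ω] (E : ∀ N, IntermediateField (W.L N) Ω)
    [∀ N, FiniteDimensional (W.L N) (E N)] {c : ℕ} (hE : ∀ N, finrank (W.L N) (E N) ≤ c)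
    (f : ∀ N, E N) (hf : germHom (fun N => (f N : Ω)) ∈ W.F0) :
    ∃ C : ℕ, ∀ᶠ N in (Filter.hyperfilter ℕ : Filter ℕ),
      height κ ![1, f N] ≤ C * (W.T N : ℤ) := by
  obtain ⟨z, p, d, hz, hp⟩ := W.exists_roots hf
  refine ⟨2 * c * ((d + 1) * d), ?_⟩
  rw [germHom_eq_iff] at hz
  filter_upwards [hz] with N hN
  obtain ⟨hp0, hpd, hpz, hph⟩ := hp N
  have h1 : aeval (f N) (p N) = 0 := by
    rw [hN] at hpz
    have h2 : algebraMap (E N) Ω (aeval (f N) (p N)) = 0 := by
      rw [← aeval_algebraMap_apply]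
      exact hpz
    exact (map_eq_zero_iff _ (algebraMap (E N) Ω).injective).1 h2
  refine (height_root_le (W.ffL N) hp0 h1 hpd).trans ?_
  have h3 : ∑ i ∈ Finset.range (d + 1), height κ ![1, (p N).coeff i] ≤
      (d + 1) * (d * (W.T N : ℤ)) := by
    refine (Finset.sum_le_sum fun i _ => hph i).trans (le_of_eq ?_)
    rw [Finset.sum_const, Finset.card_range, nsmul_eq_mul]
    push_cast
    ring
  have h4 : (0 : ℤ) ≤ (d + 1) * (d * (W.T N : ℤ)) := by positivity
  have h5 : (finrank (W.L N) (E N) : ℤ) ≤ c := by exact_mod_cast hE N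
  calc 2 * (finrank (W.L N) (E N) : ℤ) *
        ∑ i ∈ Finset.range (d + 1), height κ ![1, (p N).coeff i] ≤
        2 * (finrank (W.L N) (E N) : ℤ) * ((d + 1) * (d * (W.T N : ℤ))) :=
        mul_le_mul_of_nonneg_left h3 (by positivity)
    _ ≤ 2 * (c : ℤ) * ((d + 1) * (d * (W.T N : ℤ))) := by
        refine mul_le_mul_of_nonneg_right ?_ h4
        linarith
    _ = _ := by push_cast; ring

end

end Pool.Agent.Lib.MP_44a246_ntSM
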