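import Mathlib
import Pool.Agent.Lib.MP_44a246_ntO.OG0

/-!
# STRONG SMT: strong approximation, and the number of conditions for integral values at a place
-/

namespace Pool.Agent.Lib.MP_44a246_ntSM

open Pool.Agent.Lib.MP_44a246_nt
open Pool.Agent.Lib.MP_44a246_ntL
open Pool.Agent.Lib.MP_44a246_ntR
open Pool.Agent.Lib.MP_44a246_ntO
open WithZero Module Polynomial

section

variable {κ L : Type*} [Field κ] [IsAlgClosed κ] [CharZero κ] [Field L] [Algebra κ L]

omit [IsAlgClosed κ] [CharZero κ] in
theorem sm_lt_exp {x : ℤᵐ⁰} {n : ℤ} (h : x < exp n) : x ≤ exp (n - 1) := by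
  have h5 : x < exp (n - 1 + 1) := by
    rw [sub_add_cancel]
    exact h
  rw [exp_add] at h5
  exact (lt_mul_exp_iff_le exp_ne_zero).mp h5

/-- an element with the exact order at `v`, bounded by the divisor `D` at all the other places
different from `P` -/
theorem exists_exact (h : IsFF κ L) {P v : Place κ L} (hv : v ≠ P) (D : Place κ L →₀ ℤ) :
    ∃ f : L, v.1 f = exp (D v) ∧ ∀ w, w ≠ P → w.1 f ≤ exp (D w) := by
  classical
  obtain ⟨g, M, hM⟩ := riemann_eq h
  obtain ⟨E, hE⟩ : ∃ E : Place κ L →₀ ℤ, E = D + Finsupp.single P (M + 1 - divDeg D) := ⟨_, rfl⟩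
  have hdE : divDeg E = M + 1 := by
    rw [hE, divDeg_add, divDeg_single]
    ring
  have hE1 : ∀ w, w ≠ P → E w = D w := by
    intro w hw
    rw [hE, Finsupp.add_apply, Finsupp.single_eq_of_ne hw, add_zero]
  have hdE' : divDeg (E - Finsupp.single v 1) = M := by
    have h3 := divDeg_add (E - Finsupp.single v 1) (Finsupp.single v 1)
    rw [sub_add_cancel, divDeg_single] at h3
    omega
  have h1 := hM E (by omega)
  have h2 := hM (E - Finsupp.single v 1) (by omega)
  have hfd := finite_rr h (E - Finsupp.single v 1)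
  have hnle : ¬ rr E ≤ rr (E - Finsupp.single v 1) := by
    intro hle
    have h4 := Submodule.finrank_mono hle
    omega
  obtain ⟨f, hf, hf'⟩ := SetLike.not_le_iff_exists.mp hnle
  have hw : ∀ w, w ≠ P → w.1 f ≤ exp (D w) := by
    intro w hw
    have := hf w
    rwa [hE1 w hw] at this
  refine ⟨f, le_antisymm (hw v hv) ?_, hw⟩
  by_contra hlt
  apply hf'
  intro w
  by_cases hwv : w = v
  · rw [hwv, Finsupp.sub_apply, Finsupp.single_eq_same, hE1 v hv]
    exact sm_lt_exp (not_le.mp hlt)
  · rw [Finsupp.sub_apply, Finsupp.single_eq_of_ne hwv, sub_zero]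
    exact hf w

/-- approximation at one place, bounded by `D` at all the other places different from `P` -/
theorem approx_one (h : IsFF κ L) {P v : Place κ L} (hv : v ≠ P) (D : Place κ L →₀ ℤ) (x : L) :
    ∃ f : L, v.1 (x - f) ≤ exp (D v) ∧ ∀ w, w ≠ P → w ≠ v → w.1 f ≤ exp (D w) := by
  classical
  obtain ⟨k, hk⟩ : ∃ k : ℕ, v.1 x ≤ exp (D v + k) := by
    by_cases h0 : v.1 x = 0
    · exact ⟨0, by rw [h0]; exact zero_le⟩
    · refine ⟨(log (v.1 x) - D v).toNat, ?_⟩
      rw [← exp_log h0, exp_le_exp, log_exp]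
      have := Int.self_le_toNat (log (v.1 x) - D v)
      omega
  induction k generalizing x with
  | zero =>
    refine ⟨0, ?_, fun w _ _ => ?_⟩
    · rw [sub_zero]
      simpa using hk
    · rw [map_zero]
      exact zero_le
  | succ k ih =>
    obtain ⟨f, hf, hf'⟩ := exists_exact h hv (D + Finsupp.single v ((k : ℤ) + 1))
    rw [Finsupp.add_apply, Finsupp.single_eq_same] at hf
    have hf0 : v.1 f ≠ 0 := by
      rw [hf]
      exact exp_ne_zero
    have hf00 : f ≠ 0 := fun h0 => hf0 (by rw [h0, map_zero])
    have h1 : v.1 (x / f) ≤ 1 := by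
      rw [map_div₀, hf]
      refine (div_le_one₀ (zero_lt_iff.mpr exp_ne_zero)).mpr ?_
      push_cast at hk
      exact hk
    obtain ⟨c, hc⟩ := h.place_residue v h1
    have h2 : v.1 (x - algebraMap κ L c * f) ≤ exp (D v + k) := by
      have e : x - algebraMap κ L c * f = (x / f - algebraMap κ L c) * f := by
        field_simp
      rw [e, map_mul, hf]
      have h3 : v.1 (x / f - algebraMap κ L c) ≤ exp (0 - 1 : ℤ) := sm_lt_exp (by
        rw [exp_zero]
        exact hc)
      calc v.1 (x / f - algebraMap κ L c) * exp (D v + (↑k + 1)) ≤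
            exp (0 - 1 : ℤ) * exp (D v + (↑k + 1)) := mul_le_mul' h3 le_rfl
        _ = _ := by
          rw [← exp_add]
          congr 1
          ring
    obtain ⟨f', hf1, hf2⟩ := ih _ h2
    refine ⟨algebraMap κ L c * f + f', ?_, fun w hw hwv => ?_⟩
    · rw [← sub_sub]
      exact hf1
    · refine (w.1.map_add _ _).trans (max_le ?_ (hf2 w hw hwv))
      rw [map_mul]
      have h3 : w.1 (algebraMap κ L c) ≤ 1 := by
        by_cases h0 : c = 0
        · rw [h0, map_zero, map_zero]
          exact zero_le_one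
        · exact (w.2.2 c h0).le
      have h4 := hf' w hw
      rw [Finsupp.add_apply, Finsupp.single_eq_of_ne hwv, add_zero] at h4
      calc _ ≤ 1 * exp (D w) := mul_le_mul' h3 h4
        _ = _ := one_mul _

/-- **Strong approximation** at a finite set of places `S`, bounded by `D` at all the other places
different from `P`. -/
theorem approx_all (h : IsFF κ L) {P : Place κ L} (D : Place κ L →₀ ℤ) (x : Place κ L → L)
    (S : Finset (Place κ L)) (hS : P ∉ S) :
    ∃ ρ : L, (∀ v ∈ S, v.1 (x v - ρ) ≤ exp (D v)) ∧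
      ∀ w, w ≠ P → w ∉ S → w.1 ρ ≤ exp (D w) := by
  classical
  induction S using Finset.induction_on with
  | empty =>
    refine ⟨0, fun v hv => absurd hv (Finset.notMem_empty v), fun w _ _ => ?_⟩
    rw [map_zero]
    exact zero_le
  | insert v S hvS ih =>
    rw [Finset.mem_insert, not_or] at hS
    obtain ⟨ρ, h1, h2⟩ := ih hS.2
    obtain ⟨f, hf1, hf2⟩ := approx_one h (Ne.symm hS.1) D (x v - ρ)
    refine ⟨ρ + f, fun w hw => ?_, fun w hw hwS => ?_⟩
    · rcases Finset.mem_insert.mp hw with rfl | hw
      · rw [← sub_sub]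
        exact hf1
      · rw [← sub_sub]
        have hwv : w ≠ v := fun e => hvS (e ▸ hw)
        have hwP : w ≠ P := fun e => hS.2 (e ▸ hw)
        exact (w.1.map_sub _ _).trans (max_le (h1 w hw) (hf2 w hwP hwv))
    · rw [Finset.mem_insert, not_or] at hwS
      exact (w.1.map_add _ _).trans (max_le (h2 w hw hwS.2) (hf2 w hw hwS.1))

/-- one value: at most `k` conditions for an integral value -/
theorem cond_one (h : IsFF κ L) {A : Type*} [AddCommGroup A] [Module κ A] [FiniteDimensional κ A]
    (P : Place κ L) (φ : A →ₗ[κ] L) (k : ℕ) (V : Submodule κ A)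
    (hV : ∀ a ∈ V, P.1 (φ a) ≤ exp (k : ℤ)) :
    ∃ V' : Submodule κ A, V' ≤ V ∧ (∀ a ∈ V', P.1 (φ a) ≤ 1) ∧
      finrank κ V ≤ finrank κ V' + k := by
  classical
  induction k generalizing V with
  | zero =>
    refine ⟨V, le_rfl, fun a ha => ?_, le_rfl⟩
    have := hV a ha
    rwa [Nat.cast_zero, exp_zero] at this
  | succ k ih =>
    let V₁ : Submodule κ A :=
      { carrier := {a | a ∈ V ∧ P.1 (φ a) ≤ exp (k : ℤ)}
        add_mem' := by
          rintro a b ⟨ha, ha'⟩ ⟨hb, hb'⟩
          refine ⟨V.add_mem ha hb, ?_⟩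
          rw [map_add]
          exact (P.1.map_add _ _).trans (max_le ha' hb')
        zero_mem' := by
          refine ⟨V.zero_mem, ?_⟩
          rw [map_zero, map_zero]
          exact zero_le
        smul_mem' := by
          rintro c a ⟨ha, ha'⟩
          refine ⟨V.smul_mem c ha, ?_⟩
          rw [map_smul, Algebra.smul_def, map_mul]
          rcases eq_or_ne c 0 with h | h
          · rw [h, map_zero, map_zero, zero_mul]
            exact zero_le
          · rw [P.2.2 c h, one_mul]
            exact ha' }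
    have hV₁ : V₁ ≤ V := fun a ha => ha.1
    obtain ⟨V', h1, h2, h3⟩ := ih V₁ (fun a ha => ha.2)
    refine ⟨V', h1.trans hV₁, h2, ?_⟩
    suffices hs : finrank κ V ≤ finrank κ V₁ + 1 by omega
    by_cases hle : V ≤ V₁
    · have := Submodule.finrank_mono hle
      omega
    · obtain ⟨a, haV, ha⟩ := SetLike.not_le_iff_exists.mp hle
      have ha1 : P.1 (φ a) = exp ((k : ℤ) + 1) := by
        refine le_antisymm ?_ ?_
        · have := hV a haV
          push_cast at this
          exact this
        · by_contra hlt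
          refine ha ⟨haV, ?_⟩
          have := sm_lt_exp (not_le.mp hlt)
          rwa [add_sub_cancel_right] at this
      have hsup : V ≤ V₁ ⊔ Submodule.span κ {a} := by
        intro b hb
        have h4 : P.1 (φ b / φ a) ≤ 1 := by
          rw [map_div₀, ha1]
          refine (div_le_one₀ (zero_lt_iff.mpr exp_ne_zero)).mpr ?_
          have := hV b hb
          push_cast at this
          exact this
        obtain ⟨c, hc⟩ := h.place_residue P h4
        have h5 : b = (b - c • a) + c • a := by
          rw [sub_add_cancel]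
        rw [h5]
        refine Submodule.add_mem_sup ?_ (Submodule.smul_mem _ _ (Submodule.mem_span_singleton_self a))
        refine ⟨V.sub_mem hb (V.smul_mem c haV), ?_⟩
        have h6 : φ a ≠ 0 := by
          intro h0
          rw [h0, map_zero] at ha1
          exact exp_ne_zero ha1.symm
        have h7 : φ (b - c • a) = (φ b / φ a - algebraMap κ L c) * φ a := by
          rw [map_sub, map_smul, Algebra.smul_def]
          field_simp
        rw [h7, map_mul, ha1]
        have h8 : P.1 (φ b / φ a - algebraMap κ L c) ≤ exp (0 - 1 : ℤ) := sm_lt_exp (by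
          rw [exp_zero]
          exact hc)
        calc P.1 (φ b / φ a - algebraMap κ L c) * exp ((k : ℤ) + 1) ≤
              exp (0 - 1 : ℤ) * exp ((k : ℤ) + 1) := mul_le_mul' h8 le_rfl
          _ = _ := by
            rw [← exp_add]
            congr 1
            ring
      have h9 := (Submodule.finrank_mono hsup).trans (Submodule.finrank_add_le_finrank_add_finrank _ _)
      have h10 : finrank κ (Submodule.span κ {a}) ≤ 1 := by
        have := finrank_span_le_card (R := κ) ({a} : Set A)
        simpa using this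
      omega

/-- a finite family of values -/
theorem cond_all (h : IsFF κ L) {A : Type*} [AddCommGroup A] [Module κ A] [FiniteDimensional κ A]
    (P : Place κ L) {ι : Type*} (s : Finset ι) (φ : ι → A →ₗ[κ] L) (k : ι → ℕ)
    (V : Submodule κ A) (hV : ∀ i ∈ s, ∀ a ∈ V, P.1 (φ i a) ≤ exp (k i : ℤ)) :
    ∃ V' : Submodule κ A, V' ≤ V ∧ (∀ i ∈ s, ∀ a ∈ V', P.1 (φ i a) ≤ 1) ∧
      finrank κ V ≤ finrank κ V' + ∑ i ∈ s, k i := by
  classical
  induction s using Finset.induction_on with
  | empty =>
    exact ⟨V, le_rfl, fun i hi => absurd hi (Finset.notMem_empty i), by simp⟩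
  | insert i s his ih =>
    obtain ⟨V₁, h1, h2, h3⟩ := ih fun j hj => hV j (Finset.mem_insert_of_mem hj)
    obtain ⟨V₂, h4, h5, h6⟩ := cond_one h P (φ i) (k i) V₁ fun a ha =>
      hV i (Finset.mem_insert_self i s) a (h1 ha)
    refine ⟨V₂, h4.trans h1, fun j hj a ha => ?_, ?_⟩
    · rcases Finset.mem_insert.mp hj with rfl | hj
      · exact h5 a ha
      · exact h2 j hj a (h4 ha)
    · rw [Finset.sum_insert his]
      omega

end

end Pool.Agent.Lib.MP_44a246_ntSM
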