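import Mathlib
import Pool.Agent.Lib.MP_44a246_ntSM.SM00

/-!
# STRONG SMT: auxiliary results for the polynomials which are regular at all places
-/

namespace Pool.Agent.Lib.MP_44a246_ntSM

open Pool.Agent.Lib.MP_e52354_nt
open Pool.Agent.Lib.MP_44a246_nt
open Pool.Agent.Lib.MP_44a246_ntL
open Pool.Agent.Lib.MP_44a246_ntR
open Pool.Agent.Lib.MP_44a246_ntS
open WithZero Module Polynomial

section

variable {M : Type*} [Field M]

theorem sm_natCast_le (v : Valuation M ℤᵐ⁰) (n : ℕ) : v (n : M) ≤ 1 := by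
  induction n with
  | zero =>
    rw [Nat.cast_zero, map_zero]
    exact zero_le
  | succ n ih =>
    rw [Nat.cast_succ]
    exact (v.map_add _ _).trans (max_le ih (by rw [map_one]))

theorem coeff_lin_pow (u w : M) (i j : ℕ) :
    ((C u * X + C w) ^ i).coeff j = w ^ (i - j) * (i.choose j : M) * u ^ j := by
  have h : (C u * X + C w) ^ i = ((X + C w) ^ i).comp (C u * X) := by
    rw [pow_comp, add_comp, X_comp, C_comp]
  rw [h, comp_C_mul_X_coeff, coeff_X_add_C_pow]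

/-- the coefficients of a polynomial after a linear substitution -/
theorem comp_bound (v : Valuation M ℤᵐ⁰) {u w : M} {K e : ℤ} (hu : v u ≤ exp (-K))
    (hw : v w ≤ exp (-K - e)) {ι : Type*} (s : Finset ι) (d : ι → ℕ) (a : ι → M) (f : ℕ → ℤ)
    (ha : ∀ i ∈ s, v (a i) ≤ exp ((d i : ℤ) * K + f (d i)))
    (hf : ∀ i j, j ≤ i → f i - f j ≤ ((i : ℤ) - j) * e) (j : ℕ) :
    v ((∑ i ∈ s, C (a i) * (C u * X + C w) ^ (d i)).coeff j) ≤ exp (f j) := by
  rw [finsetSum_coeff]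
  refine v.map_sum_le fun i hi => ?_
  rw [coeff_C_mul, coeff_lin_pow]
  rcases lt_or_ge (d i) j with h | h
  · rw [Nat.choose_eq_zero_of_lt h, Nat.cast_zero, mul_zero, zero_mul, mul_zero, map_zero]
    exact zero_le
  · rw [map_mul, map_mul, map_mul, map_pow, map_pow]
    have h1 : v w ^ (d i - j) ≤ exp (((d i : ℤ) - j) * (-K - e)) := by
      refine (pow_le_pow_left' hw _).trans ?_
      rw [← exp_nsmul, nsmul_eq_mul, Nat.cast_sub h]
    have h2 : v u ^ j ≤ exp ((j : ℤ) * (-K)) := by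
      refine (pow_le_pow_left' hu _).trans ?_
      rw [← exp_nsmul, nsmul_eq_mul]
    calc v (a i) * (v w ^ (d i - j) * v ((d i).choose j : M) * v u ^ j)
        ≤ exp ((d i : ℤ) * K + f (d i)) * (exp (((d i : ℤ) - j) * (-K - e)) * 1 *
            exp ((j : ℤ) * (-K))) :=
          mul_le_mul' (ha i hi) (mul_le_mul' (mul_le_mul' h1 (sm_natCast_le v _)) h2)
      _ ≤ exp (f j) := by
        rw [mul_one, ← exp_add, ← exp_add, exp_le_exp]
        have := hf (d i) j h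
        linarith

/-- the number of degrees which is needed -/
theorem exists_deg {χ : ℚ} (hχ : 0 < χ) (m : ℚ) :
    ∃ n : ℕ, (2 : ℚ) ≤ ∑ i ∈ Finset.range (n + 1), ((i : ℚ) * χ - m) := by
  have h1 : ∀ n : ℕ, ∑ i ∈ Finset.range (n + 1), ((i : ℚ) * χ - m) =
      (n + 1) * (n * χ / 2 - m) := by
    intro n
    induction n with
    | zero => simp
    | succ n ih =>
      rw [Finset.sum_range_succ, ih]
      push_cast
      ring
  obtain ⟨n, hn⟩ := exists_nat_gt ((2 + |m|) * 2 / χ)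
  refine ⟨n, ?_⟩
  rw [h1]
  rw [div_lt_iff₀ hχ] at hn
  have h2 : (2 : ℚ) ≤ n * χ / 2 - m := by
    have := le_abs_self m
    linarith
  have h3 : (1 : ℚ) ≤ n + 1 := by
    have : (0 : ℚ) ≤ n := Nat.cast_nonneg n
    linarith
  nlinarith

end

section

variable {κ M : Type*} [Field κ] [IsAlgClosed κ] [CharZero κ] [Field M] [Algebra κ M]
  [Algebra κ[X] M] [IsScalarTower κ κ[X] M]
  [Algebra (RatFunc κ) M] [IsScalarTower κ[X] (RatFunc κ) M]
  [Algebra (Rinf κ) M] [IsScalarTower (Rinf κ) (RatFunc κ) M]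
  [FiniteDimensional (RatFunc κ) M]

/-- the centre `- δ π / D' π` depends on the uniformiser only up to order `1 + 𝔎` -/
theorem centre_close (v : Place κ M) (δ D' : Derivation ℤ M M)
    (hδX : δ (algebraMap κ[X] M X) = 0)
    (hδF : ∀ c : κ, ∃ c' : κ, δ (algebraMap κ M c) = algebraMap κ M c')
    (hκ : ∀ u : κ, D' (algebraMap κ M u) = 0) (hX : D' (algebraMap κ[X] M X) = 1)
    {K : ℤ} {π π' : M} (hπ : v.1 π = exp (-1 : ℤ)) (hπ' : v.1 π' = exp (-1 : ℤ))
    (hK : v.1 (D' π') = exp K) :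
    v.1 (- δ π / D' π - (- δ π' / D' π')) ≤ exp (-K - 1) := by
  have hne : D' π ≠ 0 := der_unif_ne v D' hκ hX hπ
  have hne' : D' π' ≠ 0 := der_unif_ne v D' hκ hX hπ'
  have hπ0 : π ≠ 0 := by
    rintro rfl
    rw [map_zero] at hπ
    exact exp_ne_zero hπ.symm
  set q : M := - δ π / D' π with hq
  obtain ⟨N, hN⟩ : ∃ N : ℕ, v.1 q ≤ exp (N : ℤ) := by
    by_cases hc : v.1 q = 0
    · exact ⟨0, by rw [hc]; exact zero_le⟩
    · refine ⟨(log (v.1 q)).toNat, ?_⟩
      rw [← exp_log hc, exp_le_exp, log_exp]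
      exact Int.self_le_toNat _
  have hb' : ∀ z, v.1 z ≤ 1 → v.1 (D' z) ≤ exp ((ramIdx (RatFunc κ) v.1 - 1 : ℕ) : ℤ) :=
    fun z hz => der_place v D' (fun u => ⟨0, by rw [hκ, map_zero]⟩) ⟨1, by rw [hX, map_one]⟩ hz
  have hb : ∀ z, v.1 z ≤ 1 → v.1 (δ z) ≤ exp ((ramIdx (RatFunc κ) v.1 - 1 : ℕ) : ℤ) :=
    fun z hz => der_place v δ hδF ⟨0, by rw [hδX, map_zero]⟩ hz
  have hD₁ : ∀ z, (δ + q • D') z = δ z + q * D' z := by
    intro z
    rw [Derivation.add_apply, Derivation.smul_apply, smul_eq_mul]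
  have h0 : (δ + q • D') π = 0 := by
    rw [hD₁, hq, div_mul_cancel₀ _ hne, add_neg_cancel]
  have hE : ∀ z, v.1 z ≤ 1 → v.1 ((δ + q • D') z) ≤ 1 := by
    intro z hz
    refine der_int v (δ + q • D') (fun u => ?_) (N := N + (ramIdx (RatFunc κ) v.1 - 1))
      (fun z hz => ?_) hπ h0 hz
    · obtain ⟨u', hu'⟩ := hδF u
      refine ⟨u', ?_⟩
      rw [hD₁, hκ, mul_zero, add_zero, hu']
    · rw [hD₁]
      refine (v.1.map_add _ _).trans (max_le ?_ ?_)
      · refine (hb z hz).trans (exp_le_exp.mpr ?_)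
        push_cast
        omega
      · rw [map_mul]
        calc v.1 q * v.1 (D' z) ≤ exp (N : ℤ) * exp ((ramIdx (RatFunc κ) v.1 - 1 : ℕ) : ℤ) :=
              mul_le_mul' hN (hb' z hz)
          _ = _ := by rw [← exp_add]; push_cast; rfl
  have h1 : v.1 (π' / π) ≤ 1 := by
    rw [map_div₀, hπ, hπ', div_self exp_ne_zero]
  have h2 : (δ + q • D') π' = π * (δ + q • D') (π' / π) := by
    have h3 : π' = π * (π' / π) := by field_simp
    conv_lhs => rw [h3]
    rw [Derivation.leibniz, h0, smul_zero, add_zero, smul_eq_mul]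
  have h3 : v.1 ((δ + q • D') π') ≤ exp (-1 : ℤ) := by
    rw [h2, map_mul, hπ]
    calc exp (-1 : ℤ) * v.1 ((δ + q • D') (π' / π)) ≤ exp (-1 : ℤ) * 1 :=
          mul_le_mul' le_rfl (hE _ h1)
      _ = _ := mul_one _
  have h4 : (δ + q • D') π' = (q - (- δ π' / D' π')) * D' π' := by
    rw [hD₁, sub_mul, div_mul_cancel₀ _ hne']
    ring
  rw [h4, map_mul, hK] at h3
  have h5 : v.1 (q - (- δ π' / D' π')) = v.1 (q - (- δ π' / D' π')) * exp K * exp (-K) := by
    rw [mul_assoc, ← exp_add, add_neg_cancel, exp_zero, mul_one]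
  rw [h5]
  calc _ ≤ exp (-1 : ℤ) * exp (-K) := mul_le_mul' h3 le_rfl
    _ = _ := by
      rw [← exp_add]
      congr 1
      ring

/-- the centre is integral at an unramified place at which `D' π` is a unit -/
theorem centre_int (v : Place κ M) (δ D' : Derivation ℤ M M)
    (hδX : δ (algebraMap κ[X] M X) = 0)
    (hδF : ∀ c : κ, ∃ c' : κ, δ (algebraMap κ M c) = algebraMap κ M c')
    {π : M} (hπ : v.1 π = exp (-1 : ℤ)) (hr : ramIdx (RatFunc κ) v.1 = 1)
    (hK : v.1 (D' π) = 1) : v.1 (- δ π / D' π) ≤ 1 := by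
  have hb : v.1 (δ π) ≤ exp ((ramIdx (RatFunc κ) v.1 - 1 : ℕ) : ℤ) :=
    der_place v δ hδF ⟨0, by rw [hδX, map_zero]⟩ (by
      rw [hπ, ← exp_zero, exp_le_exp]
      omega)
  rw [hr] at hb
  rw [map_div₀, Valuation.map_neg, hK, div_one]
  simpa using hb

end

end Pool.Agent.Lib.MP_44a246_ntSM
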