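import Mathlib
import Pool.Agent.Lib.MP_44a246_ntSM.SM00

/-!
# STRONG SMT: a function field with a regular derivation which is logarithmic at some place
-/

namespace Pool.Agent.Lib.MP_44a246_ntSM

open Pool.Agent.Lib.MP_e52354_nt
open Pool.Agent.Lib.MP_44a246_nt
open Pool.Agent.Lib.MP_44a246_ntL
open Pool.Agent.Lib.MP_44a246_ntR
open WithZero Module Polynomial

/-- **The last step.** `M` is a function field over `F`, `D` a derivation of `M` which preserves
`F`, without constants outside `F`, regular at all places, and logarithmic at the places in `B`,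
`B` not empty. Then the genus is `0` and `B` has at most two elements. -/
theorem final_log {F M : Type*} [Field F] [IsAlgClosed F] [CharZero F] [Field M] [Algebra F M]
    (h : IsFF F M) (D : Derivation ℤ M M)
    (hDF : ∀ c : F, ∃ c' : F, D (algebraMap F M c) = algebraMap F M c')
    (hker : ∀ u : M, D u = 0 → ∃ c : F, algebraMap F M c = u)
    (hreg : ∀ (v : Place F M) u, v.1 u ≤ 1 → v.1 (D u) ≤ 1)
    {B : Set (Place F M)} (hB : B.Nonempty)
    (hlog : ∀ v ∈ B, ∀ u, v.1 u < 1 → v.1 (D u) < 1) :
    genus F M = 0 ∧ B.Finite ∧ B.ncard ≤ 2 := by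
  sorry

end Pool.Agent.Lib.MP_44a246_ntSM
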