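import Mathlib
import Pool.Agent.Lib.MP_44a246_ntSH.PJ03

/-!
# STRONG SMT: a valuation ring of germs at which a given germ of large height has a pole
-/

namespace Pool.Agent.Lib.MP_44a246_ntSM

open Pool.Agent.Lib.MP_e52354_nt
open Pool.Agent.Lib.MP_44a246_nt
open Pool.Agent.Lib.MP_44a246_ntL
open Pool.Agent.Lib.MP_44a246_ntY
open Pool.Agent.Lib.MP_44a246_ntSH
open WithZero Module Polynomial

variable {κ K Ω : Type*} [Field κ] [IsAlgClosed κ] [CharZero κ] [Field K] [Algebra κ K]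
  [Field Ω] [Algebra K Ω] [Algebra κ Ω] [IsScalarTower κ K Ω] (W : Tow κ K Ω)

/-- **The valuation ring.** `z` is a germ of elements of `E N` which is not small. There is a ring
of germs of elements of `E N`, stable under the derivation `D`, a valuation ring, which contains the
small germs and does not contain `z`. Either the logarithmic derivatives of all germs are in it, or
it contains all germs which are integral at the places with `e = 0`. -/
theorem exists_valring (E : ∀ N, IntermediateField (W.L N) Ω)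
    [∀ N, FiniteDimensional (W.L N) (E N)] {c : ℕ} (hE : ∀ N, finrank (W.L N) (E N) ≤ c)
    (D : Derivation ℤ Ω Ω) (DE : ∀ N, Derivation ℤ (E N) (E N))
    (hDE : ∀ N (y : E N), ((DE N y : E N) : Ω) = D y)
    (e : ∀ N, Place κ (E N) → ℕ) (he : ∀ N, (Function.support (e N)).Finite) {C : ℕ}
    (heC : ∀ N, ∑ᶠ w, (e N w : ℤ) ≤ C * (W.T N : ℤ))
    (hreg : ∀ N (w : Place κ (E N)) y, w.1 y ≤ 1 → w.1 (DE N y) ≤ exp (e N w : ℤ))
    {z : ∀ N, E N} (hz : germHom (fun N => (z N : Ω)) ∉ W.F0) :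
    ∃ O : Subring (UP Ω),
      (∀ u ∈ O, ∃ f : ∀ N, E N, germHom (fun N => (f N : Ω)) = u) ∧
      (∀ f : ∀ N, E N, germHom (fun N => (f N : Ω)) ∈ O ∨
        (germHom (fun N => (f N : Ω)))⁻¹ ∈ O) ∧
      (∀ f : ∀ N, E N, germHom (fun N => (f N : Ω)) ∈ W.F0 →
        germHom (fun N => (f N : Ω)) ∈ O) ∧
      germHom (fun N => (z N : Ω)) ∉ O ∧
      (∀ u ∈ O, derUP D u ∈ O) ∧
      ((∀ f : ∀ N, E N, derUP D (germHom fun N => (f N : Ω)) / germHom (fun N => (f N : Ω)) ∈ O) ∨
        ∀ f : ∀ N, E N, (∀ N w, e N w = 0 → w.1 (f N) ≤ 1) →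
          germHom (fun N => (f N : Ω)) ∈ O) := by
  sorry

end Pool.Agent.Lib.MP_44a246_ntSM
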