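import Mathlib
import Pool.Agent.Lib.MP_44a246_ntSH.PJ04b
import Pool.Agent.Lib.MP_44a246_ntS.SP7
import Pool.Agent.Lib.MP_44a246_ntSM.SM04

/-!
# STRONG SMT: extension of a valuation ring to a place over a larger field of constants
-/

namespace Pool.Agent.Lib.MP_44a246_ntSM

open Pool.Agent.Lib.MP_e52354_nt
open Pool.Agent.Lib.MP_44a246_nt
open Pool.Agent.Lib.MP_44a246_ntL
open Pool.Agent.Lib.MP_44a246_ntS
open Pool.Agent.Lib.MP_44a246_ntE

open Pool.Agent.Lib.MP_44a246_ntY
open Pool.Agent.Lib.MP_44a246_ntSH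
open WithZero Module Polynomial

/-- **Extension of constants.** `M` is a function field over `F` in `U`, generated by `x`, `y` with
the equation `A`, which has coefficients in the subfield `F₁` of `F`. `O` is a valuation ring of the
subfield `G` of `U`, `F₁ ⊆ O`, `x, y ∈ G`. The elements of `S ⊆ M` are rational functions of `x`, `y`
over `F₁`. Then `S ⊆ O` or there is a place of `M` over `F` with the same integral elements in
`S`. -/
theorem exists_place_ext {F U : Type*} [Field F] [IsAlgClosed F] [CharZero F] [Field U]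
    [Algebra F U] (M : IntermediateField F U) (hM : IsFF F M) (F₁ : Subfield F) {x y : U}
    {A : F₁[X][X]} (hA : ∀ H : F[X][X], ev (algebraMap F U) x y H = 0 ↔ ex F A ∣ H)
    (G : Subfield U) (hx : x ∈ G) (hy : y ∈ G) (O : Subring U) (hOG : ∀ u ∈ O, u ∈ G)
    (hval : ∀ u ∈ G, u ∈ O ∨ u⁻¹ ∈ O) (hF₁ : ∀ c : F₁, algebraMap F U c ∈ O)
    (S : Set M) (hS : ∀ s ∈ S, ∃ p q : F₁[X][X], ev (algebraMap F U) x y (ex F q) ≠ 0 ∧
      (s : U) * ev (algebraMap F U) x y (ex F q) = ev (algebraMap F U) x y (ex F p)) :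
    (∀ s ∈ S, (s : U) ∈ O) ∨ ∃ v : Place F M, ∀ s ∈ S, ((s : U) ∈ O ↔ v.1 s ≤ 1) := by
  sorry

end Pool.Agent.Lib.MP_44a246_ntSM
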