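import Mathlib
import Pool.Agent.Lib.MP_44a246_ntSH.PJ03

/-!
# STRONG SMT: the derivation on the field of small germs; tame germs
-/

namespace Pool.Agent.Lib.MP_44a246_ntSM

open Pool.Agent.Lib.MP_e52354_nt
open Pool.Agent.Lib.MP_44a246_nt
open Pool.Agent.Lib.MP_44a246_ntL
open Pool.Agent.Lib.MP_44a246_ntY
open Pool.Agent.Lib.MP_44a246_ntSH
open WithZero Module Polynomial

section

variable {κ K Ω : Type*} [Field κ] [IsAlgClosed κ] [CharZero κ] [Field K] [Algebra κ K]
  [Field Ω] [Algebra K Ω] [Algebra κ Ω] [IsScalarTower κ K Ω]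

/-- the derivation of `K` (regular off finitely many places) and its extension to `Ω` with
constants `κ` -/
theorem exists_der [IsAlgClosed Ω] [Algebra.IsAlgebraic K Ω] (hK : IsFF κ K) :
    ∃ (D₀ : Derivation ℤ K K) (D : Derivation ℤ Ω Ω) (B : Place κ K → ℕ),
      (Function.support B).Finite ∧ PoleBound κ D₀ B ∧
      (∀ y : K, D (algebraMap K Ω y) = algebraMap K Ω (D₀ y)) ∧
      ∀ y : Ω, D y = 0 ↔ ∃ c : κ, algebraMap κ Ω c = y := by
  -- `t` transcendental, `D₀ t = 1`, `D₀ κ = 0` (`exists_poleBound`); the constants of `D` are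
  -- algebraic over the constants of `D₀` (characteristic zero), which are algebraic over `κ`
  sorry

variable (W : Tow κ K Ω)

/-- the field generated by the small germs and the germs of the sequences in `L N` -/
noncomputable def tm : IntermediateField W.F0 (UP Ω) :=
  IntermediateField.adjoin W.F0 {u | ∃ f : ∀ N, W.L N, germHom (fun N => (f N : Ω)) = u}

variable {W}

/-- the derivation preserves the finite extensions -/
theorem exists_DE {D₀ : Derivation ℤ K K} {D : Derivation ℤ Ω Ω}
    (hD : ∀ y : K, D (algebraMap K Ω y) = algebraMap K Ω (D₀ y))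
    (E : ∀ N, IntermediateField (W.L N) Ω) [∀ N, FiniteDimensional (W.L N) (E N)] :
    ∃ DE : ∀ N, Derivation ℤ (E N) (E N), (∀ N (y : E N), ((DE N y : E N) : Ω) = D y) ∧
      ∀ N (y : K), DE N (algebraMap K (E N) y) = algebraMap K (E N) (D₀ y) := by
  sorry

/-- the small germs are stable under the derivation -/
theorem der_mem_F0 {D₀ : Derivation ℤ K K} {D : Derivation ℤ Ω Ω}
    (hD : ∀ y : K, D (algebraMap K Ω y) = algebraMap K Ω (D₀ y)) {B : Place κ K → ℕ}
    (hB : (Function.support B).Finite) (hDB : PoleBound κ D₀ B) {u : UP Ω} (hu : u ∈ W.F0) :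
    derUP D u ∈ W.F0 := by
  -- `sm`: `polar_over`, `height κ ![1, D z] ≤ 2 height κ ![1, z] + ∑ (e B + (e - 1))`
  -- (`e = ramIdx K w`); algebraic elements: `D u = - (P^D) (u) / P' (u)`
  sorry

/-- the tame germs are stable under the derivation -/
theorem der_mem_tm {D₀ : Derivation ℤ K K} {D : Derivation ℤ Ω Ω}
    (hD : ∀ y : K, D (algebraMap K Ω y) = algebraMap K Ω (D₀ y)) {B : Place κ K → ℕ}
    (hB : (Function.support B).Finite) (hDB : PoleBound κ D₀ B) {u : UP Ω} (hu : u ∈ tm W) :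
    derUP D u ∈ tm W := by
  sorry

/-- the constants of the derivation are small -/
theorem mem_F0_of_der_eq_zero {D : Derivation ℤ Ω Ω}
    (hD : ∀ y : Ω, D y = 0 → ∃ c : κ, algebraMap κ Ω c = y) {u : UP Ω} (hu : derUP D u = 0) :
    u ∈ W.F0 := by
  sorry

/-- a tame germ is a rational expression of finitely many small germs and of germs of sequences in
`L N` -/
theorem tm_finite {u : UP Ω} (hu : u ∈ tm W) :
    ∃ C : Finset (UP Ω), (∀ c ∈ C, c ∈ W.F0) ∧ ∀ G : Subfield (UP Ω), (∀ c ∈ C, c ∈ G) →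
      (∀ f : ∀ N, W.L N, germHom (fun N => (f N : Ω)) ∈ G) → u ∈ G := by
  -- `IntermediateField.adjoin_induction`
  sorry

/-- a common sequence of extensions for finitely many tame germs -/
theorem exists_common [IsAlgClosed Ω] [Algebra.IsAlgebraic K Ω] (S : Finset (UP Ω))
    (hS : ∀ s ∈ S, s ∈ tm W) :
    ∃ (c : ℕ) (E : ∀ N, IntermediateField (W.L N) Ω),
      (∀ N, FiniteDimensional (W.L N) (E N)) ∧ (∀ N, finrank (W.L N) (E N) ≤ c) ∧
      (∀ N, ramDeg κ (E N) K ≤ c * W.T N) ∧
      ∀ s ∈ S, ∃ f : ∀ N, E N, germHom (fun N => (f N : Ω)) = s := by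
  -- `Tow.exists_fld` (PJ03) for the union of the sets `C` of `tm_finite`
  sorry

end

end Pool.Agent.Lib.MP_44a246_ntSM
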