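import Mathlib
import Pool.Agent.Lib.MP_44a246_ntSM.SM01
import Pool.Agent.Lib.MP_44a246_ntSM.SM02
import Pool.Agent.Lib.MP_44a246_ntSM.SM03
import Pool.Agent.Lib.MP_44a246_ntSM.SM05
import Pool.Agent.Lib.MP_44a246_ntSM.SM06
import Pool.Agent.Lib.MP_44a246_ntSM.SM07

/-!
# STRONG SMT: the ring of germs and the places of a function field; the theorem
-/

namespace Pool.Agent.Lib.MP_44a246_ntSM

open Pool.Agent.Lib.MP_e52354_nt
open Pool.Agent.Lib.MP_44a246_nt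
open Pool.Agent.Lib.MP_44a246_ntL
open Pool.Agent.Lib.MP_44a246_ntR
open Pool.Agent.Lib.MP_44a246_ntY
open Pool.Agent.Lib.MP_44a246_ntSH
open WithZero Module Polynomial

section

variable {κ K Ω : Type*} [Field κ] [IsAlgClosed κ] [CharZero κ] [Field K] [Algebra κ K]
  [Field Ω] [Algebra K Ω] [Algebra κ Ω] [IsScalarTower κ K Ω] {W : Tow κ K Ω}

/-- the boundary places of a field `M` which contains the vector `x` and the values `y l` (of
degree `d l`) -/
def bd {F U : Type*} [Field F] [Field U] [Algebra F U] (M : IntermediateField F U) {n : ℕ}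
    {Λ : Type*} (d : Λ → ℕ) (x : Fin (n + 1) → U) (y : Λ → U) : Set (Place F M) :=
  {v | ∃ (x' : Fin (n + 1) → M) (y' : Λ → M), (∀ i, (x' i : U) = x i) ∧ (∀ l, (y' l : U) = y l) ∧
    ∃ l, v.1 (y' l) < vmax v.1 x' ^ d l}

/-- **KE.** -/
theorem exists_ring [IsAlgClosed Ω] [Algebra.IsAlgebraic K Ω] {D₀ : Derivation ℤ K K}
    {D : Derivation ℤ Ω Ω} (hD : ∀ y : K, D (algebraMap K Ω y) = algebraMap K Ω (D₀ y))
    {B : Place κ K → ℕ} (hB : (Function.support B).Finite) (hDB : PoleBound κ D₀ B)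
    {n : ℕ} {Λ : Type*} [Finite Λ] {d : Λ → ℕ} {x : ∀ N, Fin (n + 1) → W.L N}
    (hx : ∀ N, x N ≠ 0) {y : ∀ N, Λ → W.L N}
    {P : ∀ N, Finset (Place κ (W.L N))} (hP : ∀ N, (P N).card ≤ W.T N)
    (hc : ∀ N, ∀ w : Place κ (W.L N), w ∉ P N → ∀ l, w.1 (y N l) = vmax w.1 (x N) ^ d l)
    (M : IntermediateField W.F0 (UP Ω)) (hM : IsFF W.F0 M) (hMt : M ≤ tm W)
    {z : UP Ω} (hz : z ∈ tm W) (hz0 : z ∉ W.F0) (S : Finset M) :
    ∃ O : Subring (UP Ω), z ∉ O ∧ (∀ u ∈ O, derUP D u ∈ O) ∧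
      ((∀ s ∈ S, (s : UP Ω) ∈ O) ∨ ∃ v : Place W.F0 M, (∀ s ∈ S, ((s : UP Ω) ∈ O ↔ v.1 s ≤ 1)) ∧
        (v ∈ bd M d (fun i => germHom (fun N => (x N i : Ω)))
            (fun l => germHom (fun N => (y N l : Ω))) →
          ∀ s ∈ S, derUP D (s : UP Ω) / (s : UP Ω) ∈ O)) := by
  sorry

/-- **STRONG SMT.** There is no function field `M₀` over the field of the small germs which contains
the germ of `x` and of `y` and consists of tame germs, if the logarithmic canonical degree of all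
such fields is positive (log adjunction). -/
theorem strong_smt [IsAlgClosed Ω] [Algebra.IsAlgebraic K Ω]
    {n : ℕ} {Λ : Type*} [Finite Λ] {d : Λ → ℕ} {x : ∀ N, Fin (n + 1) → W.L N}
    (hx : ∀ N, x N ≠ 0) {y : ∀ N, Λ → W.L N}
    {P : ∀ N, Finset (Place κ (W.L N))} (hP : ∀ N, (P N).card ≤ W.T N)
    (hc : ∀ N, ∀ w : Place κ (W.L N), w ∉ P N → ∀ l, w.1 (y N l) = vmax w.1 (x N) ^ d l)
    (M₀ : IntermediateField W.F0 (UP Ω)) (hM₀ : IsFF W.F0 M₀) (hMt₀ : M₀ ≤ tm W)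
    (hx₀ : ∀ i, germHom (fun N => (x N i : Ω)) ∈ M₀)
    (hy₀ : ∀ l, germHom (fun N => (y N l : Ω)) ∈ M₀)
    (hadj : ∀ M : IntermediateField W.F0 (UP Ω), IsFF W.F0 M → M₀ ≤ M → M ≤ tm W →
      ∀ (_ : Algebra (RatFunc W.F0) M) (_ : IsScalarTower W.F0 (RatFunc W.F0) M)
        (_ : FiniteDimensional (RatFunc W.F0) M),
        (bd M d (fun i => germHom (fun N => (x N i : Ω)))
          (fun l => germHom (fun N => (y N l : Ω)))).Finite ∧
        1 ≤ (ramDeg W.F0 M (RatFunc W.F0) : ℤ) - 2 * finrank (RatFunc W.F0) M +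
          (bd M d (fun i => germHom (fun N => (x N i : Ω)))
            (fun l => germHom (fun N => (y N l : Ω)))).ncard) : False := by
  sorry

end

end Pool.Agent.Lib.MP_44a246_ntSM
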